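import Mathlib

set_option autoImplicit false
set_option linter.unusedSectionVars false

/-! Algebra: extraction of the top term from powers of the Frobenius map. -/

namespace Pool.Agent.TH410.KV

open Finset
open scoped Pointwise

section Alg

variable (q : ℕ) [Fact q.Prime] {A : Type*} [CommRing A] [Algebra (ZMod q) A] [CharP A q]

/-- the Frobenius map as a linear map -/
noncomputable def Ph : Module.End (ZMod q) A where
  toFun y := y ^ q
  map_add' x y := add_pow_char x y q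
  map_smul' a x := by
    simp only [RingHom.id_apply]
    rw [smul_pow, ZMod.pow_card]

theorem Ph_apply (y : A) : Ph q y = y ^ q := rfl

theorem Ph_pow (j : ℕ) (y : A) : (Ph q ^ j) y = y ^ (q ^ j) := by
  induction j with
  | zero => simp
  | succ j ih => rw [pow_succ', Module.End.mul_apply, ih, Ph_apply, ← pow_mul, ← pow_succ]

/-- the difference operator -/
noncomputable def De : Module.End (ZMod q) A := 1 - Ph q

theorem De_apply (y : A) : De q y = y - y ^ q := rfl

theorem De_pow_char (e : ℕ) : (De q : Module.End (ZMod q) A) ^ (q ^ e) = 1 - Ph q ^ (q ^ e) := by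
  have h1 : ((1 - Polynomial.X : Polynomial (ZMod q)) ^ (q ^ e)) = 1 - Polynomial.X ^ (q ^ e) := by
    rw [sub_pow_char_pow, one_pow]
  have h2 := congrArg (Polynomial.aeval (Ph q : Module.End (ZMod q) A)) h1
  unfold De
  simpa only [map_pow, map_sub, map_one, Polynomial.aeval_X] using h2

theorem pow_period {x : A} {n e : ℕ} (hx : (De q ^ n) x = 0) (hn : n ≤ q ^ e) :
    x ^ (q ^ (q ^ e)) = x := by
  have h1 : (De q ^ (q ^ e)) x = 0 := by
    obtain ⟨d, hd⟩ := Nat.exists_eq_add_of_le hn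
    rw [hd, add_comm, pow_add, Module.End.mul_apply, hx, map_zero]
  rw [De_pow_char] at h1
  have h2 : x - (Ph q ^ (q ^ e)) x = 0 := h1
  rw [Ph_pow] at h2
  exact (sub_eq_zero.1 h2).symm

theorem pow_add_period {x : A} {K : ℕ} (hK : 1 ≤ K) (hx : x ^ K = x) (M : ℕ) (hM : 1 ≤ M) (j : ℕ) :
    x ^ (M + j * (K - 1)) = x ^ M := by
  induction j with
  | zero => simp
  | succ j ih =>
    have h1 : M + (j + 1) * (K - 1) = (M - 1) + j * (K - 1) + K := by
      obtain ⟨M, rfl⟩ : ∃ m, M = m + 1 := ⟨M - 1, by omega⟩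
      obtain ⟨K, rfl⟩ : ∃ m, K = m + 1 := ⟨K - 1, by omega⟩
      simp only [Nat.add_sub_cancel]
      ring
    have h2 : M + j * (K - 1) = (M - 1) + j * (K - 1) + 1 := by omega
    rw [h1, pow_add, hx, ← pow_succ, ← h2, ih]

theorem pow_eq_self {u : A} {K : ℕ} (hK : 1 ≤ K) (hu : u ^ K = u) (m : ℕ) (hm : 1 ≤ m)
    (hmod : m ≡ 1 [MOD (K - 1)]) : u ^ m = u := by
  have h1 : (K - 1) ∣ m - 1 := (Nat.modEq_iff_dvd' hm).1 hmod.symm
  obtain ⟨j, hj⟩ := h1
  have h2 : m = 1 + j * (K - 1) := by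
    have : m - 1 = j * (K - 1) := by rw [hj, mul_comm]
    omega
  rw [h2, pow_add_period hK hu 1 le_rfl j, pow_one]

/-- the top term is a combination of the powers `z ^ (q ^ (T k))` -/
theorem top_mem {z u : A} {n T : ℕ} (hz : (De q ^ n) z = u) (hu : De q u = 0) :
    (T : A) ^ n * u ∈ Submodule.span (ZMod q) {y | ∃ k ≤ n, y = z ^ (q ^ (T * k))} := by
  have hPu : ∀ j, (Ph q ^ j) u = u := by
    have h0 : Ph q u = u := by
      have : u - Ph q u = 0 := hu
      exact (sub_eq_zero.1 this).symm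
    intro j
    induction j with
    | zero => simp
    | succ j ih => rw [pow_succ', Module.End.mul_apply, ih, h0]
  set G : Module.End (ZMod q) A := ∑ i ∈ range T, Ph q ^ i with hG
  have hGu : ∀ j, (G ^ j) u = (T : A) ^ j * u := by
    intro j
    induction j with
    | zero => simp
    | succ j ih =>
      rw [pow_succ, Module.End.mul_apply]
      have h1 : G u = (T : A) * u := by
        rw [hG, LinearMap.sum_apply, Finset.sum_congr rfl (fun i _ => hPu i), sum_const,
          card_range, nsmul_eq_mul]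
      have h2 : ∀ (m : ℕ) (y : A), (G ^ j) ((m : A) * y) = (m : A) * (G ^ j) y := by
        intro m y
        rw [← nsmul_eq_mul, ← nsmul_eq_mul, map_nsmul]
      rw [h1, h2, ih, pow_succ]
      ring
  have hfac : (1 - Ph q ^ T : Module.End (ZMod q) A) = G * De q := by
    rw [hG]
    exact (geom_sum_mul_neg (Ph q : Module.End (ZMod q) A) T).symm
  have hcomm : Commute G (De q : Module.End (ZMod q) A) := by
    have h1 : Commute (Ph q : Module.End (ZMod q) A) (De q) :=
      (Commute.one_right _).sub_right (Commute.refl _)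
    rw [hG]
    exact Commute.sum_left _ _ _ fun i _ => h1.pow_left i
  have h1 : ((1 - Ph q ^ T : Module.End (ZMod q) A) ^ n) z = (T : A) ^ n * u := by
    rw [hfac, hcomm.mul_pow, Module.End.mul_apply, hz, hGu]
  rw [← h1]
  clear h1 hz
  induction n with
  | zero =>
    refine Submodule.subset_span ⟨0, le_rfl, ?_⟩
    simp
  | succ n ih =>
    rw [pow_succ', Module.End.mul_apply]
    have key : ∀ y ∈ Submodule.span (ZMod q) {y | ∃ k ≤ n, y = z ^ (q ^ (T * k))},
        (1 - Ph q ^ T : Module.End (ZMod q) A) y ∈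
          Submodule.span (ZMod q) {y | ∃ k ≤ n + 1, y = z ^ (q ^ (T * k))} := by
      intro y hy
      induction hy using Submodule.span_induction with
      | mem y hy =>
        obtain ⟨k, hk, rfl⟩ := hy
        change z ^ (q ^ (T * k)) - (Ph q ^ T) (z ^ (q ^ (T * k))) ∈ _
        refine Submodule.sub_mem _ (Submodule.subset_span ⟨k, by omega, rfl⟩)
          (Submodule.subset_span ⟨k + 1, by omega, ?_⟩)
        rw [Ph_pow, ← pow_mul, ← pow_add]
        congr 2
      | zero => rw [map_zero]; exact Submodule.zero_mem _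
      | add x y _ _ hx hy => rw [map_add]; exact Submodule.add_mem _ hx hy
      | smul a x _ hx => rw [map_smul]; exact Submodule.smul_mem _ _ hx
    exact key _ ih

/-- powers of elements of a span of powers -/
theorem pow_mem_span {z v : A} {P B : ℕ} {E : Set ℕ} (hE : ∀ k ∈ E, k ≡ 1 [MOD P] ∧ 1 ≤ k ∧ k ≤ B)
    (hv : v ∈ Submodule.span (ZMod q) {y | ∃ k ∈ E, y = z ^ k}) (s : ℕ) :
    v ^ s ∈ Submodule.span (ZMod q) {y | ∃ N, N ≡ s [MOD P] ∧ s ≤ N ∧ N ≤ s * B ∧ y = z ^ N} := by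
  induction s with
  | zero =>
    refine Submodule.subset_span ⟨0, rfl, le_rfl, by simp, by simp⟩
  | succ s ih =>
    rw [pow_succ]
    have h1 := Submodule.mul_mem_mul ih hv
    rw [Submodule.span_mul_span] at h1
    refine Submodule.span_mono ?_ h1
    rintro _ ⟨_, ⟨N, hN1, hN2, hN3, rfl⟩, _, ⟨k, hk, rfl⟩, rfl⟩
    obtain ⟨hk1, hk2, hk3⟩ := hE k hk
    refine ⟨N + k, hN1.add hk1, by omega, ?_, ?_⟩
    · rw [add_mul, one_mul]
      omega
    · simp only [pow_add]

/-- **Extraction.** -/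
theorem extract {x z u : A} (Lb : A →ₗ[ZMod q] ZMod q) {n T P : ℕ} (hx : (De q ^ n) x = u)
    (hz : (De q ^ n) z = u) (hu : De q u = 0) (hL : Lb u ≠ 0) (hT : ¬ q ∣ T)
    (hTP : q ^ T ≡ 1 [MOD P]) (w s : ℕ) (hw : 1 ≤ w) (hws : w + s ≡ 1 [MOD (q - 1)]) :
    ∃ M N : ℕ, 1 ≤ M ∧ M ≤ w * q ^ n ∧ N ≤ s * q ^ (T * n) ∧ N ≡ s [MOD P] ∧
      Lb (x ^ M * z ^ N) ≠ 0 := by
  have hq : q.Prime := Fact.out
  by_contra hcon
  push Not at hcon
  have h1 := top_mem (T := 1) q hx hu
  have h2 := top_mem (T := T) q hz hu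
  rw [Nat.cast_one, one_pow, one_mul] at h1
  have h3 : u ^ w ∈ Submodule.span (ZMod q)
      {y | ∃ N, N ≡ w [MOD 1] ∧ w ≤ N ∧ N ≤ w * q ^ n ∧ y = x ^ N} := by
    refine pow_mem_span q (E := {m | ∃ k ≤ n, m = q ^ k}) (P := 1) (B := q ^ n) ?_ ?_ w
    · rintro _ ⟨k, hk, rfl⟩
      exact ⟨Nat.modEq_one, Nat.one_le_pow _ _ hq.pos, Nat.pow_le_pow_right hq.pos hk⟩
    · refine Submodule.span_mono ?_ h1
      rintro _ ⟨k, hk, rfl⟩
      exact ⟨q ^ k, ⟨k, hk, rfl⟩, by rw [one_mul]⟩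
  have h4 : ((T : A) ^ n * u) ^ s ∈ Submodule.span (ZMod q)
      {y | ∃ N, N ≡ s [MOD P] ∧ s ≤ N ∧ N ≤ s * q ^ (T * n) ∧ y = z ^ N} := by
    refine pow_mem_span q (E := {m | ∃ k ≤ n, m = q ^ (T * k)}) (P := P) (B := q ^ (T * n)) ?_ ?_ s
    · rintro _ ⟨k, hk, rfl⟩
      refine ⟨?_, Nat.one_le_pow _ _ hq.pos,
        Nat.pow_le_pow_right hq.pos (Nat.mul_le_mul_left _ hk)⟩
      rw [pow_mul]
      simpa using hTP.pow k
    · refine Submodule.span_mono ?_ h2
      rintro _ ⟨k, hk, rfl⟩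
      exact ⟨q ^ (T * k), ⟨k, hk, rfl⟩, rfl⟩
  have h5 := Submodule.mul_mem_mul h3 h4
  rw [Submodule.span_mul_span] at h5
  have h6 : ∀ y ∈ Submodule.span (ZMod q) (({y | ∃ N, N ≡ w [MOD 1] ∧ w ≤ N ∧ N ≤ w * q ^ n ∧
      y = x ^ N} : Set A) * {y | ∃ N, N ≡ s [MOD P] ∧ s ≤ N ∧ N ≤ s * q ^ (T * n) ∧ y = z ^ N}),
      Lb y = 0 := by
    intro y hy
    induction hy using Submodule.span_induction with
    | mem y hy =>
      obtain ⟨_, ⟨M, _, hM1, hM2, rfl⟩, _, ⟨N, hN1, _, hN2, rfl⟩, rfl⟩ := hy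
      exact hcon M N (by omega) hM2 hN2 hN1
    | zero => exact map_zero _
    | add x y _ _ hx hy => rw [map_add, hx, hy, add_zero]
    | smul a x _ hx => rw [map_smul, hx, smul_zero]
  have h7 := h6 _ h5
  have h8 : u ^ w * ((T : A) ^ n * u) ^ s = ((T : ZMod q) ^ (n * s)) • u := by
    have h9 : u ^ (w + s) = u := by
      refine pow_eq_self hq.one_le ?_ (w + s) (by omega) hws
      exact (sub_eq_zero.1 hu).symm
    rw [mul_pow, ← pow_mul, ← mul_assoc, mul_comm (u ^ w), mul_assoc, ← pow_add, h9,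
      Algebra.smul_def, map_pow, map_natCast]
  rw [h8, map_smul, smul_eq_mul, mul_eq_zero] at h7
  rcases h7 with h7 | h7
  · have h9 : (T : ZMod q) = 0 := by
      by_contra h9
      exact pow_ne_zero _ h9 h7
    exact hT ((ZMod.natCast_eq_zero_iff T q).1 h9)
  · exact hL h7

end Alg

end Pool.Agent.TH410.KV
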