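import Mathlib
import Pool.Agent.H98R2.Ev.Defs
import Pool.Agent.H98R2.Ev.T15
import Pool.Agent.TH410.KV.Orb

set_option autoImplicit false

/-!
Types of blocks and the containment relation for compositions.
-/

namespace Pool.Agent.TH410.KV

open Finset Pool.Agent.H98R2.Ev

/-- a family of finite graphs -/
abbrev Fam : Type := Set (Σ k : ℕ, SimpleGraph (Fin k))

variable {𝓕 : Fam}

/-- a raw type: for each member the vertex sets that fit into the block -/
abbrev RT (𝓕 : Fam) : Type := ∀ F : 𝓕, Set (Finset (Fin F.1.1))

/-- the type is closed under disjoint unions without edges between the parts -/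
def Stable (t : RT 𝓕) : Prop :=
  ∀ F : 𝓕, ∅ ∈ t F ∧ ∀ U W : Finset (Fin F.1.1), Disjoint U W →
    (∀ x ∈ U, ∀ y ∈ W, ¬ F.1.2.Adj x y) → U ∈ t F → W ∈ t F → U ∪ W ∈ t F

/-- types of blocks -/
abbrev TY (𝓕 : Fam) : Type := {t : RT 𝓕 // Stable t}

open Classical in
/-- some member of the family fits into the composition of `G` with blocks of the types `τ v` -/
def Bad {V : Type} (τ : V → TY 𝓕) (G : SimpleGraph V) : Prop :=
  ∃ (F : 𝓕) (κ : Fin F.1.1 → V), (∀ v, univ.filter (fun x => κ x = v) ∈ (τ v).1 F) ∧
    ∀ x y, F.1.2.Adj x y → κ x ≠ κ y → G.Adj (κ x) (κ y)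

theorem bad_iso {V W : Type} (e : V ≃ W) (τ : W → TY 𝓕) (G : SimpleGraph W) :
    Bad (fun v => τ (e v)) (G.comap e) ↔ Bad τ G := by
  classical
  constructor
  · rintro ⟨F, κ, h1, h2⟩
    refine ⟨F, fun x => e (κ x), fun w => ?_, fun x y hxy hne => ?_⟩
    · have := h1 (e.symm w)
      simp only [Equiv.apply_symm_apply] at this
      convert this using 3
      exact (Equiv.eq_symm_apply e).symm
    · exact h2 x y hxy (fun h => hne (congrArg e h))
  · rintro ⟨F, κ, h1, h2⟩
    refine ⟨F, fun x => e.symm (κ x), fun v => ?_, fun x y hxy hne => ?_⟩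
    · have := h1 (e v)
      convert this using 3
      exact Equiv.symm_apply_eq e
    · simp only [SimpleGraph.comap_adj, Equiv.apply_symm_apply]
      exact h2 x y hxy (fun h => hne (congrArg e.symm h))

theorem Stable.union_color {t : RT 𝓕} (ht : Stable t) (F : 𝓕) {α : Type} [DecidableEq α]
    (s : Finset α) (U : Finset (Fin F.1.1)) (ρ : Fin F.1.1 → α)
    (h : ∀ i, U.filter (fun x => ρ x = i) ∈ t F)
    (hρ : ∀ x ∈ U, ∀ y ∈ U, F.1.2.Adj x y → ρ x = ρ y) :
    U.filter (fun x => ρ x ∈ s) ∈ t F := by
  classical
  induction s using Finset.induction_on with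
  | empty => simpa using (ht F).1
  | insert a s ha ih =>
    have e1 : U.filter (fun x => ρ x ∈ insert a s) =
        U.filter (fun x => ρ x = a) ∪ U.filter (fun x => ρ x ∈ s) := by
      ext x
      simp only [mem_filter, mem_union, mem_insert]
      tauto
    rw [e1]
    refine (ht F).2 _ _ ?_ ?_ (h a) ih
    · rw [Finset.disjoint_left]
      intro x hx hx'
      rw [mem_filter] at hx hx'
      exact ha (hx.2 ▸ hx'.2)
    · intro x hx y hy hxy
      rw [mem_filter] at hx hy
      have := hρ x hx.1 y hy.1 hxy
      rw [hx.2] at this
      exact ha (this ▸ hy.2)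

theorem Stable.color {t : RT 𝓕} (ht : Stable t) (F : 𝓕) {α : Type} [DecidableEq α] [Fintype α]
    (U : Finset (Fin F.1.1)) (ρ : Fin F.1.1 → α)
    (h : ∀ i, U.filter (fun x => ρ x = i) ∈ t F)
    (hρ : ∀ x ∈ U, ∀ y ∈ U, F.1.2.Adj x y → ρ x = ρ y) : U ∈ t F := by
  have := ht.union_color F univ U ρ h hρ
  simpa using this

/-- sets which are a disjoint union of `α` sets of the type `t` -/
def Jn (α : Type) [DecidableEq α] (t : RT 𝓕) : RT 𝓕 := fun F =>
  {U | ∃ ρ : Fin F.1.1 → α, ∀ i, U.filter (fun x => ρ x = i) ∈ t F}

theorem Stable.jn {t : RT 𝓕} (ht : Stable t) (α : Type) [DecidableEq α] [Nonempty α] :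
    Stable (Jn α t) := by
  classical
  intro F
  refine ⟨⟨fun _ => Classical.arbitrary α, fun i => by simpa using (ht F).1⟩, ?_⟩
  rintro U W hd hUW ⟨ρ, hρ⟩ ⟨ρ', hρ'⟩
  refine ⟨fun x => if x ∈ U then ρ x else ρ' x, fun i => ?_⟩
  have e1 : (U ∪ W).filter (fun x => (if x ∈ U then ρ x else ρ' x) = i) =
      U.filter (fun x => ρ x = i) ∪ W.filter (fun x => ρ' x = i) := by
    ext x
    simp only [mem_filter, mem_union]
    by_cases hx : x ∈ U
    · have hx' : x ∉ W := fun h => (Finset.disjoint_left.1 hd) hx h
      simp [hx, hx']
    · simp [hx]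
  rw [e1]
  refine (ht F).2 _ _ ?_ ?_ (hρ i) (hρ' i)
  · exact Finset.disjoint_of_subset_left (filter_subset _ _)
      (Finset.disjoint_of_subset_right (filter_subset _ _) hd)
  · intro x hx y hy
    exact hUW x (mem_filter.1 hx).1 y (mem_filter.1 hy).1

/-- the join of `q` copies -/
def J (q : ℕ) (t : TY 𝓕) : TY 𝓕 := ⟨Jn (ZMod q) t.1, t.2.jn (ZMod q)⟩

/-- types on `Option W` -/
def oty {W : Type} (t : TY 𝓕) (τ : W → TY 𝓕) : Option W → TY 𝓕 := fun v => v.elim t τ

/-- types on `ZMod q ⊕ W` -/
def sty {W : Type} (q : ℕ) (t : TY 𝓕) (τ : W → TY 𝓕) : ZMod q ⊕ W → TY 𝓕 :=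
  Sum.elim (fun _ => t) τ

/-- collapse of the `q` equal blocks -/
def col {W : Type} (q : ℕ) : ZMod q ⊕ W → Option W := Sum.elim (fun _ => none) some

theorem merge0 {W : Type} (q : ℕ) [NeZero q] (t : TY 𝓕) (τ : W → TY 𝓕)
    (H : SimpleGraph (ZMod q ⊕ W)) (G : SimpleGraph (Option W))
    (hH : ∀ x y, H.Adj x y ↔ G.Adj (col q x) (col q y)) :
    Bad (sty q t τ) H ↔ Bad (oty t τ) G := by
  classical
  constructor
  · rintro ⟨F, κ, h1, h2⟩
    refine ⟨F, fun x => col q (κ x), fun v => ?_, fun x y hxy hne => ?_⟩
    · rcases v with _ | w
      · change _ ∈ t.1 F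
        set U : Finset (Fin F.1.1) := univ.filter (fun x => col q (κ x) = none) with hU
        let ρ : Fin F.1.1 → ZMod q := fun x => (κ x).elim id (fun _ => 0)
        have hUρ : ∀ x ∈ U, κ x = Sum.inl (ρ x) := by
          intro x hx
          rw [hU, mem_filter] at hx
          rcases hκ : κ x with i | w
          · simp only [ρ, hκ, Sum.elim_inl, id]
          · rw [hκ] at hx
            simp [col] at hx
        have hmain : U ∈ t.1 F := by
          refine t.2.color F U ρ (fun i => ?_) ?_
          · have := h1 (Sum.inl i)
            change _ ∈ t.1 F at this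
            convert this using 1
            ext x
            constructor
            · intro hx
              obtain ⟨hx, hi⟩ := mem_filter.1 hx
              simp only [mem_filter, mem_univ, true_and]
              rw [hUρ x hx, hi]
            · intro hx
              simp only [mem_filter, mem_univ, true_and] at hx
              have hxU : x ∈ U := by
                rw [hU, mem_filter, hx]
                exact ⟨mem_univ _, rfl⟩
              refine mem_filter.2 ⟨hxU, ?_⟩
              have := hUρ x hxU
              rw [hx] at this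
              exact (Sum.inl_injective this).symm
          · intro x hx y hy hxy
            by_contra hne
            have h3 := h2 x y hxy (fun h => hne (by
              rw [hUρ x hx, hUρ y hy] at h
              exact Sum.inl_injective h))
            rw [hUρ x hx, hUρ y hy, hH] at h3
            exact G.loopless.irrefl _ h3
        convert hmain using 1
        ext x
        simp only [hU, mem_filter, mem_univ, true_and]
      · have := h1 (Sum.inr w)
        change _ ∈ (τ w).1 F at this
        change _ ∈ (τ w).1 F
        convert this using 1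
        ext x
        simp only [mem_filter, mem_univ, true_and]
        rcases κ x with i | w' <;> simp [col]
    · have h3 := h2 x y hxy (fun h => hne (congrArg _ h))
      rwa [hH] at h3
  · rintro ⟨F, κ, h1, h2⟩
    let sec : Option W → ZMod q ⊕ W := fun v => v.elim (Sum.inl 0) Sum.inr
    have hsec : ∀ v, col q (sec v) = v := by
      rintro (_ | w) <;> rfl
    refine ⟨F, fun x => sec (κ x), fun v => ?_, fun x y hxy hne => ?_⟩
    · rcases v with i | w
      · change _ ∈ t.1 F
        by_cases hi : i = 0
        · subst hi
          have := h1 none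
          change _ ∈ t.1 F at this
          convert this using 1
          ext x
          simp only [mem_filter, mem_univ, true_and]
          rcases κ x with _ | w <;> simp [sec]
        · convert (t.2 F).1 using 1
          ext x
          simp only [mem_filter, mem_univ, true_and, notMem_empty, iff_false]
          rcases κ x with _ | w
          · simp only [sec, Option.elim, Sum.inl.injEq]
            exact fun h => hi h.symm
          · simp [sec]
      · have := h1 (some w)
        change _ ∈ (τ w).1 F at this
        change _ ∈ (τ w).1 F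
        convert this using 1
        ext x
        simp only [mem_filter, mem_univ, true_and]
        rcases κ x with _ | w' <;> simp [sec]
    · rw [hH, hsec, hsec]
      exact h2 x y hxy (fun h => hne (congrArg _ h))

theorem merge1 {W : Type} (q : ℕ) [NeZero q] (t : TY 𝓕) (τ : W → TY 𝓕)
    (H : SimpleGraph (ZMod q ⊕ W)) (G : SimpleGraph (Option W))
    (hH : ∀ x y, H.Adj x y ↔ (x ≠ y ∧ col q x = none ∧ col q y = none) ∨
      G.Adj (col q x) (col q y)) :
    Bad (sty q t τ) H ↔ Bad (oty (J q t) τ) G := by
  classical
  constructor
  · rintro ⟨F, κ, h1, h2⟩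
    refine ⟨F, fun x => col q (κ x), fun v => ?_, fun x y hxy hne => ?_⟩
    · rcases v with _ | w
      · change _ ∈ Jn (ZMod q) t.1 F
        set U : Finset (Fin F.1.1) := univ.filter (fun x => col q (κ x) = none) with hU
        let ρ : Fin F.1.1 → ZMod q := fun x => (κ x).elim id (fun _ => 0)
        have hUρ : ∀ x ∈ U, κ x = Sum.inl (ρ x) := by
          intro x hx
          rw [hU, mem_filter] at hx
          rcases hκ : κ x with i | w
          · simp only [ρ, hκ, Sum.elim_inl, id]
          · rw [hκ] at hx
            simp [col] at hx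
        have hmain : U ∈ Jn (ZMod q) t.1 F := by
          refine ⟨ρ, fun i => ?_⟩
          have := h1 (Sum.inl i)
          change _ ∈ t.1 F at this
          convert this using 1
          ext x
          constructor
          · intro hx
            obtain ⟨hx, hi⟩ := mem_filter.1 hx
            simp only [mem_filter, mem_univ, true_and]
            rw [hUρ x hx, hi]
          · intro hx
            simp only [mem_filter, mem_univ, true_and] at hx
            have hxU : x ∈ U := by
              rw [hU, mem_filter, hx]
              exact ⟨mem_univ _, rfl⟩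
            refine mem_filter.2 ⟨hxU, ?_⟩
            have := hUρ x hxU
            rw [hx] at this
            exact (Sum.inl_injective this).symm
        convert hmain using 1
        ext x
        simp only [hU, mem_filter, mem_univ, true_and]
      · have := h1 (Sum.inr w)
        change _ ∈ (τ w).1 F at this
        change _ ∈ (τ w).1 F
        convert this using 1
        ext x
        simp only [mem_filter, mem_univ, true_and]
        rcases κ x with i | w' <;> simp [col]
    · have h3 := h2 x y hxy (fun h => hne (congrArg _ h))
      rw [hH] at h3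
      rcases h3 with ⟨_, h4, h5⟩ | h3
      · exact absurd (h4.trans h5.symm) hne
      · exact h3
  · rintro ⟨F, κ, h1, h2⟩
    obtain ⟨ρ, hρ⟩ : _ ∈ Jn (ZMod q) t.1 F := h1 none
    let g : Fin F.1.1 → ZMod q ⊕ W := fun x => (κ x).elim (Sum.inl (ρ x)) Sum.inr
    have hg : ∀ x, col q (g x) = κ x := by
      intro x
      simp only [g]
      rcases κ x with _ | w <;> rfl
    refine ⟨F, g, fun v => ?_, fun x y hxy hne => ?_⟩
    · rcases v with i | w
      · change _ ∈ t.1 F
        convert hρ i using 1
        ext x
        simp only [mem_filter, mem_univ, true_and, g]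
        rcases κ x with _ | w <;> simp
      · have := h1 (some w)
        change _ ∈ (τ w).1 F at this
        change _ ∈ (τ w).1 F
        convert this using 1
        ext x
        simp only [mem_filter, mem_univ, true_and, g]
        rcases κ x with _ | w' <;> simp
    · rw [hH, hg, hg]
      by_cases h3 : κ x = κ y
      · left
        refine ⟨hne, ?_⟩
        rcases hx : κ x with _ | w
        · exact ⟨rfl, by rw [← h3, hx]⟩
        · exfalso
          apply hne
          have hy : κ y = some w := by rw [← h3, hx]
          simp only [g, hx, hy, Option.elim]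
      · right
        exact h2 x y hxy h3

/-- a type which contains a whole member makes everything bad -/
theorem bad_of_univ {V : Type} (τ : V → TY 𝓕) (G : SimpleGraph V) (v : V) (F : 𝓕)
    (h : univ ∈ (τ v).1 F) : Bad τ G := by
  classical
  refine ⟨F, fun _ => v, fun w => ?_, fun x y _ hne => absurd rfl hne⟩
  by_cases hw : v = w
  · subst hw
    simpa using h
  · simp only [hw, filter_false]
    exact ((τ w).2 F).1

theorem bad_unit (t : TY 𝓕) {V : Type} [Unique V] (G : SimpleGraph V) :
    Bad (fun _ : V => t) G ↔ ∃ F : 𝓕, univ ∈ t.1 F := by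
  classical
  constructor
  · rintro ⟨F, κ, h1, _⟩
    refine ⟨F, ?_⟩
    have := h1 default
    convert this using 1
    ext x
    simp only [mem_univ, mem_filter, true_and, true_iff]
    exact Subsingleton.elim _ _
  · rintro ⟨F, hF⟩
    exact bad_of_univ _ _ default F hF

end Pool.Agent.TH410.KV
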