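import Mathlib
import Pool.Agent.TH410.KV.Cub
import Pool.Agent.H98R2.Nb.N8of

set_option autoImplicit false
set_option linter.unusedSectionVars false

/-! The signed number of invariant graphs without a member, as a value of the functional. -/

namespace Pool.Agent.TH410.KV

open Finset Pool.Agent.H98R2.Ev Pool.Agent.H98R2.Nb

variable {𝓕 : Fam}

section Circ

variable (q : ℕ) [Fact q.Prime]

/-- the signed sum of the classes of the circulant types -/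
noncomputable def zc {b ℓ : ℕ} [NeZero ℓ] (hb : ∀ F : 𝓕, F.1.1 ≤ b) (hℓ : b ^ 2 < ℓ)
    (w : (ZMod ℓ)ˣ) : AA 𝓕 q :=
  ∑ T : Finset (Om ℓ w), ((-1 : ZMod q) ^ T.card) • cl q (ct hb hℓ w T)

theorem De_zc [CharP (AA 𝓕 q) q] (hq : q = 2 ∨ q = 3) {b : ℕ} (hb : ∀ F : 𝓕, F.1.1 ≤ b)
    (I N : ℕ) (F : 𝓕) (hF : CS (q ^ I) N F.1.2) {ℓ : ℕ} [Fact ℓ.Prime] (hℓ : b ^ 2 < ℓ)
    (w : (ZMod ℓ)ˣ) (hord : 3 ^ N ≤ orderOf w) :
    (De q ^ I) (zc q hb hℓ w) = cl q ((J q)^[I] (xi : TY 𝓕)) := by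
  classical
  have hne : NeZero q := ⟨(Fact.out : q.Prime).ne_zero⟩
  unfold zc
  rw [map_sum, Finset.sum_eq_single (∅ : Finset (Om ℓ w))]
  · rw [card_empty, pow_zero, one_smul, ct_empty, De_cl q hq]
  · intro T _ hT
    rw [map_smul, De_cl q hq,
      cl_zero q _ F (ct_univ hb q I N F hF hℓ w hord T (nonempty_iff_ne_empty.2 hT)), smul_zero]
  · intro h
    exact absurd (mem_univ _) h

open Classical in
/-- the coefficients of `zc` -/
noncomputable def cf {b ℓ : ℕ} [NeZero ℓ] (hb : ∀ F : 𝓕, F.1.1 ≤ b) (hℓ : b ^ 2 < ℓ)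
    (w : (ZMod ℓ)ˣ) : TY 𝓕 → ZMod q := fun t =>
  ∑ T ∈ univ.filter (fun T : Finset (Om ℓ w) => ct hb hℓ w T = t), (-1 : ZMod q) ^ T.card

theorem zc_eq [Fintype (TY 𝓕)] {b ℓ : ℕ} [NeZero ℓ] (hb : ∀ F : 𝓕, F.1.1 ≤ b)
    (hℓ : b ^ 2 < ℓ) (w : (ZMod ℓ)ˣ) :
    zc q hb hℓ w = ∑ t : TY 𝓕, cf q hb hℓ w t • cl q t := by
  classical
  unfold zc cf
  rw [← Finset.sum_fiberwise univ (fun T : Finset (Om ℓ w) => ct hb hℓ w T)
    (fun T => ((-1 : ZMod q) ^ T.card) • cl q (ct hb hℓ w T))]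
  refine Finset.sum_congr rfl fun t _ => ?_
  rw [Finset.sum_smul]
  refine Finset.sum_congr ?_ fun T hT => ?_
  · ext T
    simp
  · rw [(mem_filter.1 hT).2]

end Circ

section Count

variable {I J' : Type} {F : I → Type} [∀ i, Field (F i)] {ℓ : J' → ℕ}
  [DecidableEq I] [DecidableEq J'] [Fintype I] [Fintype J'] [∀ j, Fact (ℓ j).Prime]
  (q : ℕ) [Fact q.Prime]

open Classical in
theorem count_eq {b : ℕ} (hb : ∀ F : 𝓕, F.1.1 ≤ b) (hℓ : ∀ j, b ^ 2 < ℓ j)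
    (hF : ∀ i, Nonempty (Fin b ↪ F i)) (w : ∀ j, (ZMod (ℓ j))ˣ) :
    ((∑ A : Finset (Omg (I := I) w),
      (if ¬ Has 𝓕 (gA (F := F) w A) then (-1 : ℤ) ^ A.card else 0) : ℤ) : ZMod q) =
    Lb 𝓕 q (cl q (xi : TY 𝓕) ^ Fintype.card I * ∏ j, zc q hb (hℓ j) (w j)) := by
  have e1 : (∑ A : Finset (Omg (I := I) w),
        if ¬ Has 𝓕 (gA (F := F) w A) then (-1 : ℤ) ^ A.card else 0) =
      ∑ T : (∀ j, Finset (Om (ℓ j) (w j))), ∑ S : Finset (EV (I ⊕ J')),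
        (if ¬ Has 𝓕 (gg (F := F) w S T) then (-1:ℤ) ^ S.card * ∏ j, (-1:ℤ) ^ (T j).card
          else 0) := by
    refine (Fintype.sum_congr _ _ (fun A => ?_)).trans
      (N8.reindex w (fun S T => ¬ Has 𝓕 (gg (F := F) w S T)))
    by_cases h : Has 𝓕 (gA (F := F) w A)
    · have h' : Has 𝓕 (gg (F := F) w A.toLeft (comp w A.toRight)) := h
      rw [if_neg (by simpa using h), if_neg (by simpa using h')]
    · have h' : ¬ Has 𝓕 (gg (F := F) w A.toLeft (comp w A.toRight)) := h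
      rw [if_pos h, if_pos h']
  rw [e1]
  have e2 : (∏ j, zc q hb (hℓ j) (w j) : AA 𝓕 q) =
      ∑ T : (∀ j, Finset (Om (ℓ j) (w j))), (∏ j, (-1 : ZMod q) ^ (T j).card) •
        ∏ j, cl q (ct hb (hℓ j) (w j) (T j)) := by
    unfold zc
    rw [Finset.prod_univ_sum, Fintype.piFinset_univ]
    refine Fintype.sum_congr _ _ fun T => ?_
    rw [Finset.prod_smul]
  rw [e2, Finset.mul_sum, map_sum, Int.cast_sum]
  refine Fintype.sum_congr _ _ fun T => ?_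
  have e3 : cl q (xi : TY 𝓕) ^ Fintype.card I * ∏ j, cl q (ct hb (hℓ j) (w j) (T j)) =
      ∏ v, cl q (bty I hb hℓ w T v) := by
    rw [Fintype.prod_sum_type]
    simp only [bty, Sum.elim_inl, Sum.elim_inr, prod_const, card_univ]
  rw [mul_smul_comm, e3, map_smul, Lb_prod, smul_eq_mul, Int.cast_sum]
  unfold NN
  rw [Finset.mul_sum]
  refine Fintype.sum_congr _ _ fun S => ?_
  have h := has_iff_bad hb hℓ hF w S T
  unfold ind
  by_cases h1 : Has 𝓕 (gg (F := F) w S T)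
  · rw [if_neg (not_not.2 h1), if_pos (h.1 h1)]
    simp
  · rw [if_pos h1, if_neg (fun h2 => h1 (h.2 h2))]
    push_cast
    ring

end Count

end Pool.Agent.TH410.KV
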