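import Mathlib
import Pool.Agent.TH410.KV.CubCount
import Pool.Agent.H98R2.Nb.GC
import Pool.Agent.H98R2.Nb.N4a
import Pool.Agent.H98R2.Nb.N4b
import Pool.Agent.H98R2.Nb.N4c
import Pool.Agent.H98R2.Nb.N4d
import Pool.Agent.H98R2.Nb.N5a

set_option autoImplicit false
set_option linter.unusedSectionVars false

/-! The criterion for field blocks of any characteristic and prime blocks. -/

namespace Pool.Agent.TH410.KV

open Finset Pool.Agent.H98R2.Ev Pool.Agent.H98R2.Nb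

section Crit

variable {I J' : Type} {F : I → Type} [∀ i, Field (F i)] {ℓ : J' → ℕ}

theorem tra_pow_inl (t : ∀ i, F i) (m : ℕ) (i : I) (u : F i) :
    ((tra t : Equiv.Perm (VB F ℓ)) ^ m) (Sum.inl ⟨i, u⟩) = Sum.inl ⟨i, u + m * t i⟩ := by
  induction m with
  | zero => simp
  | succ m ih =>
    rw [pow_succ', Equiv.Perm.mul_apply, ih, N4d_tra_inl]
    push_cast
    rw [add_mul, one_mul, add_assoc]

theorem tra_pow_inr (t : ∀ i, F i) (m : ℕ) (z : Σ j : J', ZMod (ℓ j)) :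
    ((tra t : Equiv.Perm (VB F ℓ)) ^ m) (Sum.inr z) = Sum.inr z := by
  induction m with
  | zero => simp
  | succ m ih => rw [pow_succ', Equiv.Perm.mul_apply, ih, N4d_tra_inr]

theorem tra_pow (p : ℕ) [∀ i, CharP (F i) p] (t : ∀ i, F i) :
    (tra t : Equiv.Perm (VB F ℓ)) ^ p = 1 := by
  apply Equiv.ext
  rintro (⟨i, u⟩ | z)
  · rw [tra_pow_inl, CharP.cast_eq_zero, zero_mul, add_zero, Equiv.Perm.one_apply]
  · rw [tra_pow_inr, Equiv.Perm.one_apply]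

theorem Has.mono' {𝓕 : Fam} {V W : Type} {G : SimpleGraph V} {H : SimpleGraph W}
    (h : Has 𝓕 G) (hGH : G.IsContained H) : Has 𝓕 H := by
  obtain ⟨F, hF, hFG⟩ := h
  exact ⟨F, hF, hFG.trans hGH⟩

theorem not_has_bot' {𝓕 : Fam} (h0 : ∀ H ∈ 𝓕, ¬ H.2.Colorable 1) {V : Type} :
    ¬ Has 𝓕 (⊥ : SimpleGraph V) := by
  rintro ⟨H, hH, ⟨f⟩⟩
  apply h0 H hH
  refine ⟨SimpleGraph.Coloring.mk (fun _ => (0 : Fin 1)) ?_⟩
  intro u v huv
  exact (f.toHom.map_adj huv).elim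

variable [Fintype I] [DecidableEq I] [Fintype J'] [DecidableEq J'] [∀ j, Fact (ℓ j).Prime]
  [∀ i, Fintype (F i)]

open Classical in
theorem crit_c (p q a : ℕ) [Fact p.Prime] [Fact q.Prime] [∀ i, CharP (F i) p] (𝓕 : Fam)
    (F₀ : Σ k : ℕ, SimpleGraph (Fin k)) (hF₀ : F₀ ∈ 𝓕) (h0 : ∀ H ∈ 𝓕, ¬ H.2.Colorable 1)
    (hcard : ∀ i, F₀.1 ≤ Nat.card (F i)) (N₀ : ℕ) (hN₀ : 0 < N₀)
    (hcop : ∀ j, Nat.Coprime N₀ (ℓ j)) (hN : ∀ i, (Nat.card (F i) - 1) ∣ N₀)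
    (hinj : Function.Injective ℓ) (w : ∀ j, (ZMod (ℓ j))ˣ) (hw : ∀ j, w j ^ (q ^ a) = 1)
    (hne : NE (univ : Finset (EV (VB F ℓ))) (fun S => ¬ Has 𝓕 (toG S))) :
    (q : ℤ) ∣ ∑ A : Finset (Omg (I := I) w),
      if ¬ Has 𝓕 (gA (F := F) w A) then (-1 : ℤ) ^ A.card else 0 := by
  have : ∀ i, Finite (F i)ˣ := fun i => inferInstance
  choose g hg using fun i => IsCyclic.exists_generator (α := (F i)ˣ)
  have hgen : ∀ i (x : (F i)ˣ), ∃ u : ℕ, x = g i ^ u := by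
    intro i x
    obtain ⟨u, hu⟩ := (mem_powers_iff_mem_zpowers).2 (hg i x)
    exact ⟨u, hu.symm⟩
  have hgN : ∀ i, g i ^ N₀ = 1 := by
    intro i
    have h1 : Nat.card (F i)ˣ = Nat.card (F i) - 1 := Nat.card_units _
    obtain ⟨m, hm⟩ := hN i
    rw [hm, pow_mul, ← h1, pow_card_eq_one', one_pow]
  have hcrit := GC.graph_criterion (V := VB F ℓ) (fun G => ¬ Has 𝓕 G)
    (fun G G' hGG' hP h => hP (Has.mono' h (SimpleGraph.IsContained.of_le hGG')))
    (fun s G hP h => hP (Has.mono' h ⟨(SimpleGraph.Iso.map s G).symm.toCopy⟩))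
    (not_has_bot' h0)
    hne p q a (fun t : (∀ i, F i) => tra t) (cycv g (fun _ => 1)) (mulv w)
    (fun s t => tra_comm s t) (fun t => tra_pow p t)
    (mulv_pow w _ hw)
    (fun t => tra_mulv t w)
    (by
      intro G hG t
      rw [cycv_tra]
      exact hG _)
    (by
      intro G _ hG
      rw [mulv_cycv]
      have := inv_cycv N₀ hN₀ hinj hcop g hgN G hG 1
        (fun j => (((w j)⁻¹ : (ZMod (ℓ j))ˣ) : ZMod (ℓ j)) * 1)
      simpa only [pow_one] using this)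
    (fun A : Finset (Omg (I := I) w) => gA w A)
    (fun A B => gA_le w A B) (fun A t => (gA_inv w A).1 t) (fun A => (gA_inv w A).2.1 g _)
    (fun A => (gA_inv w A).2.2)
    (by
      intro G hP hG1 hG2 hG3
      exact complete N₀ hN₀ hinj hcop g hgN w G hG1 hG2 hG3 (by
        intro i x y hxy
        exact hP (has_heavy 𝓕 F₀ hF₀ g hgen G hG1 hG2 i (hcard i) x y hxy)))
  convert hcrit using 3

end Crit

end Pool.Agent.TH410.KV
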