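import Mathlib
import Pool.Agent.TH410.KV.CubNum
import Pool.Agent.TH410.KV.CubCrit
import Pool.Agent.H98R2.Ev.T3
import Pool.Agent.H98R2.Ev.T15

set_option autoImplicit false
set_option linter.unusedSectionVars false

/-! Containment of a member of a family which splits into cubical classes is evasive. -/

namespace Pool.Agent.TH410.KV

open Finset Pool.Agent.H98R2.Ev Pool.Agent.H98R2.Nb

/-- the contradiction for one number of vertices -/
theorem no_ne {p q : ℕ} [Fact p.Prime] [Fact q.Prime] (hq : q = 2 ∨ q = 3) {I N b : ℕ}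
    {𝓕 : Fam} (hb : ∀ F : 𝓕, F.1.1 ≤ b) (h0 : ∀ F : 𝓕, ¬ F.1.2.Colorable (q ^ I))
    (F₀ : 𝓕) (hcs : CS (q ^ I) N F₀.1.2) (c : ℕ) (hc : 1 ≤ c) (hbc : b ≤ p ^ c)
    (e : ℕ) (he : I + 1 ≤ q ^ e) (a : ℕ)
    (M₀ k M j₀ M₂ : ℕ) (hM₀ : 1 ≤ M₀) (hM : M = M₀ + j₀ * (q ^ (q ^ e) - 1)) (hM₂ : M₂ ≤ M)
    (ℓ : Fin k → ℕ) [∀ j, Fact (ℓ j).Prime] (hinj : Function.Injective ℓ)
    (hℓb : ∀ j, b ^ 2 < ℓ j) (hℓp : ∀ j, p ^ (c + 1) < ℓ j)
    (w : ∀ j, (ZMod (ℓ j))ˣ) (hord : ∀ j, orderOf (w j) = q ^ a)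
    (z : AA 𝓕 q) (hz : ∀ j, zc q hb (hℓb j) (w j) = z)
    (hL : Lb 𝓕 q (cl q (xi : TY 𝓕) ^ M₀ * z ^ k) ≠ 0) (n : ℕ)
    (hn : n = p ^ c * (M + (p - 1) * M₂) + ∑ j, ℓ j)
    (hne : NE (univ : Finset (EV (Fin n))) (fun S => ¬ Has 𝓕 (toG S))) : False := by
  classical
  have hp : p.Prime := Fact.out
  have hqp : q.Prime := Fact.out
  let F : Fin M → Type := fun i => GaloisField p (c + (if (i : ℕ) < M₂ then 1 else 0))
  have hfin : ∀ i, Fintype (F i) := fun i => Fintype.ofFinite _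
  have hFcard : ∀ i, Nat.card (F i) = p ^ (c + (if (i : ℕ) < M₂ then 1 else 0)) := by
    intro i
    exact GaloisField.card p _ (by omega)
  have hFcard' : ∀ i, Nat.card (F i) = p ^ c ∨ Nat.card (F i) = p ^ (c + 1) := by
    intro i
    rw [hFcard]
    split_ifs
    · exact Or.inr rfl
    · exact Or.inl rfl
  have hFb : ∀ i, b ≤ Nat.card (F i) := by
    intro i
    rcases hFcard' i with h | h <;> rw [h]
    · exact hbc
    · exact hbc.trans (Nat.pow_le_pow_right hp.pos (Nat.le_succ c))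
  have hemb : ∀ i, Nonempty (Fin b ↪ F i) := by
    intro i
    apply Function.Embedding.nonempty_of_card_le
    rw [Fintype.card_fin, ← Nat.card_eq_fintype_card]
    exact hFb i
  have hcard : Fintype.card (Fin n) = Fintype.card (VB F ℓ) := by
    rw [Fintype.card_fin, Fintype.card_sum, Fintype.card_sigma, Fintype.card_sigma]
    simp only [ZMod.card]
    rw [hn, ← size_sum p c M M₂ hp.one_le hM₂]
    congr 1
    refine Finset.sum_congr rfl fun i _ => ?_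
    rw [← Nat.card_eq_fintype_card, hFcard]
  let E : Fin n ≃ VB F ℓ := Fintype.equivOfCardEq hcard
  have hNE2 := ne_map15 (ev15 E) _ _ hne
  rw [Finset.map_univ_equiv] at hNE2
  have hNE3 : NE (univ : Finset (EV (VB F ℓ))) (fun S => ¬ Has 𝓕 (toG S)) := by
    have h1 : (fun S : Finset (EV (VB F ℓ)) => ¬ Has 𝓕 (toG S)) =
        (fun S => ¬ Has 𝓕 (toG (S.map (ev15 E).symm.toEmbedding))) := by
      funext S
      have h1 : toG (S.map (ev15 E).symm.toEmbedding) = (toG S).map E.symm.toEmbedding :=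
        toG_map15 E.symm S
      rw [h1]
      apply propext
      rw [not_iff_not]
      exact ⟨fun h => Has.mono' h ⟨(SimpleGraph.Iso.map E.symm (toG S)).toCopy⟩,
        fun h => Has.mono' h ⟨(SimpleGraph.Iso.map E.symm (toG S)).symm.toCopy⟩⟩
    rw [h1]
    exact hNE2
  have hpc : 0 < p ^ c - 1 := by
    have h1 : p ^ 1 ≤ p ^ c := Nat.pow_le_pow_right hp.pos hc
    rw [pow_one] at h1
    have := hp.two_le
    omega
  have hpc1 : p ^ c ≤ p ^ (c + 1) := Nat.pow_le_pow_right hp.pos (Nat.le_succ c)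
  have hcop : ∀ j, Nat.Coprime ((p ^ c - 1) * (p ^ (c + 1) - 1)) (ℓ j) := by
    intro j
    have h1 := hℓp j
    have hpr : (ℓ j).Prime := Fact.out
    refine Nat.Coprime.mul_left ?_ ?_
    · rw [Nat.coprime_comm, hpr.coprime_iff_not_dvd]
      intro h
      have := Nat.le_of_dvd hpc h
      omega
    · rw [Nat.coprime_comm, hpr.coprime_iff_not_dvd]
      intro h
      have := Nat.le_of_dvd (by omega) h
      omega
  have hcrit := crit_c (F := F) p q a 𝓕 F₀.1 F₀.2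
    (fun H hH h => h0 ⟨H, hH⟩ (h.mono (Nat.one_le_pow _ _ hqp.pos)))
    (fun i => (hb F₀).trans (hFb i)) ((p ^ c - 1) * (p ^ (c + 1) - 1))
    (Nat.mul_pos hpc (by omega)) hcop
    (fun i => by
      rcases hFcard' i with h | h <;> rw [h]
      · exact Dvd.intro _ rfl
      · exact Dvd.intro_left _ rfl)
    hinj w (fun j => by rw [← hord j]; exact pow_orderOf_eq_one _) hNE3
  have hcnt := count_eq (F := F) q hb hℓb hemb w
  rw [(ZMod.intCast_zmod_eq_zero_iff_dvd _ q).2 hcrit] at hcnt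
  apply hL
  have hX : ∀ H : 𝓕, univ ∉ (xi : TY 𝓕).1 H := by
    intro H hH
    have h2 : univ ∈ ((J q)^[0] (xi : TY 𝓕)).1 H := hH
    have hne : NeZero q := ⟨hqp.ne_zero⟩
    rw [xi_iter, pow_zero] at h2
    exact h0 H (h2.mono (Nat.one_le_pow _ _ hqp.pos))
  have hnt : Nontrivial (AA 𝓕 q) := nontrivial_AA q _ hX
  have hch : CharP (AA 𝓕 q) q := charP_AA q
  have hneq : NeZero q := ⟨hqp.ne_zero⟩
  have hDe : (De q ^ (I + 1)) (cl q (xi : TY 𝓕)) = 0 := by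
    rw [De_cl q hq]
    refine cl_zero q _ F₀ ((xi_iter q (I + 1) F₀).2 (hcs.colorable.mono ?_))
    rw [pow_succ]
    exact Nat.mul_le_mul_left _ hqp.two_le
  have hper := pow_period q hDe he
  have hX2 : cl q (xi : TY 𝓕) ^ M = cl q (xi : TY 𝓕) ^ M₀ := by
    rw [hM]
    exact pow_add_period (Nat.one_le_pow _ _ hqp.pos) hper M₀ hM₀ j₀
  rw [Fintype.card_fin, hX2, Finset.prod_congr rfl (fun j _ => hz j), prod_const, card_univ,
    Fintype.card_fin] at hcnt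
  exact hcnt.symm

/-- **Containing a member of a family is evasive if no member is `h`-colourable and some member
splits into `h` cubical classes**, `h` a power of 2 or 3. -/
theorem cub_main {p q : ℕ} (hpq : PQ p q) (I N b : ℕ) (𝓕 : Fam) (hb : ∀ F ∈ 𝓕, F.1 ≤ b)
    (h0 : ∀ F ∈ 𝓕, ¬ F.2.Colorable (q ^ I)) (hF₀ : ∃ F ∈ 𝓕, CS (q ^ I) N F.2) :
    ∃ n₀ : ℕ, ∀ n : ℕ, n₀ ≤ n →
      ∀ s : Finset (Sym2 (Fin n)) → SimpleGraph (Fin n) → Sym2 (Fin n),
        (∀ (Q : Finset (Sym2 (Fin n))) (G H : SimpleGraph (Fin n)),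
            (∀ e ∈ Q, (e ∈ G.edgeSet ↔ e ∈ H.edgeSet)) → s Q G = s Q H) →
        ∃ G H : SimpleGraph (Fin n),
          (∀ e ∈ (fun Q : Finset (Sym2 (Fin n)) => insert (s Q G) Q)^[n.choose 2 - 1]
                (∅ : Finset (Sym2 (Fin n))),
              (e ∈ G.edgeSet ↔ e ∈ H.edgeSet)) ∧ Has 𝓕 G ∧ ¬ Has 𝓕 H := by
  classical
  obtain ⟨F₀, hF₀, hcs⟩ := hF₀
  have hpp : Fact p.Prime := ⟨hpq.hp⟩
  have hqq : Fact q.Prime := ⟨by rcases hpq.hq with h | h <;> rw [h] <;> norm_num⟩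
  have hqp : q.Prime := hqq.out
  have hneq : NeZero q := ⟨hqp.ne_zero⟩
  have hb' : ∀ F : 𝓕, F.1.1 ≤ b := fun F => hb F.1 F.2
  have h0' : ∀ F : 𝓕, ¬ F.1.2.Colorable (q ^ I) := fun F => h0 F.1 F.2
  have hfinTY : Finite (TY 𝓕) := finite_TY hb'
  have hfty : Fintype (TY 𝓕) := Fintype.ofFinite _
  set c := b + 1 with hc
  have hbc : b ≤ p ^ c :=
    (Nat.lt_pow_self hpq.hp.one_lt).le.trans (Nat.pow_le_pow_right hpq.hp.pos (Nat.le_succ b))
  obtain ⟨T, hT1, hT2⟩ := hpq.per c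
  set e := I + 1 with he
  have heI : I + 1 ≤ q ^ e := (Nat.lt_pow_self hqp.one_lt).le
  set a := 2 * N with ha
  have haN : 3 ^ N ≤ q ^ a := by
    rw [ha, pow_mul]
    apply Nat.pow_le_pow_left
    have := Nat.pow_le_pow_left hqp.two_le 2
    omega
  -- the primes
  have hex : ∀ l : ℕ, ∃ f : TY 𝓕 → ZMod q, ∀ [Fact l.Prime] (hl : b ^ 2 < l), q ^ a ∣ l - 1 →
      ∃ w : (ZMod l)ˣ, orderOf w = q ^ a ∧ cf q hb' hl w = f := by
    intro l
    by_cases hl : l.Prime ∧ b ^ 2 < l ∧ q ^ a ∣ l - 1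
    · have : Fact l.Prime := ⟨hl.1⟩
      obtain ⟨w, hw⟩ := exists_order l (q ^ a) hl.2.2
      exact ⟨cf q hb' hl.2.1 w, fun _ _ => ⟨w, hw, rfl⟩⟩
    · refine ⟨0, ?_⟩
      intro hp h1 h2
      exact absurd ⟨hp.out, h1, h2⟩ hl
  choose f hf using hex
  obtain ⟨zf, ε, hε, hεp⟩ := inf_primes (p ^ c * q ^ a) (max (b ^ 2) (p ^ (c + 1)))
    (Nat.mul_ne_zero (pow_ne_zero _ hpq.hp.ne_zero) (pow_ne_zero _ hqp.ne_zero)) f
  have hεP : ∀ j, Fact (ε j).Prime := fun j => ⟨(hεp j).1⟩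
  have hεb : ∀ j, b ^ 2 < ε j := fun j => lt_of_le_of_lt (le_max_left _ _) (hεp j).2.1
  have hεc : ∀ j, p ^ (c + 1) < ε j := fun j => lt_of_le_of_lt (le_max_right _ _) (hεp j).2.1
  have hε1 : ∀ j, ε j ≡ 1 [MOD p ^ c] := fun j => (hεp j).2.2.1.of_mul_right _
  have hε2 : ∀ j, q ^ a ∣ ε j - 1 := by
    intro j
    have h1 : ε j ≡ 1 [MOD q ^ a] := (hεp j).2.2.1.of_mul_left _
    exact (Nat.modEq_iff_dvd' (hεp j).1.one_le).1 h1.symm
  have hw : ∀ j, ∃ w : (ZMod (ε j))ˣ, orderOf w = q ^ a ∧ cf q hb' (hεb j) w = zf := by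
    intro j
    obtain ⟨w, hw1, hw2⟩ := hf (ε j) (hεb j) (hε2 j)
    exact ⟨w, hw1, hw2.trans (hεp j).2.2.2⟩
  choose w hw1 hw2 using hw
  set z : AA 𝓕 q := ∑ t : TY 𝓕, zf t • cl q t with hz
  have hzj : ∀ j, zc q hb' (hεb j) (w j) = z := by
    intro j
    rw [zc_eq, hw2]
  -- the algebra
  have hU : ∀ H : 𝓕, univ ∉ ((J q)^[I] (xi : TY 𝓕)).1 H := by
    intro H hH
    exact h0' H ((xi_iter q I H).1 hH)
  have hnt : Nontrivial (AA 𝓕 q) := nontrivial_AA q _ hU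
  have hch : CharP (AA 𝓕 q) q := charP_AA q
  set u : AA 𝓕 q := cl q ((J q)^[I] (xi : TY 𝓕)) with hu
  have hux : (De q ^ I) (cl q (xi : TY 𝓕)) = u := De_cl q hpq.hq I _
  have huz : (De q ^ I) z = u := by
    rw [← hzj 0]
    exact De_zc q hpq.hq hb' I N ⟨F₀, hF₀⟩ hcs (hεb 0) (w 0) (by rw [hw1]; exact haN)
  have hu0 : De q u = 0 := by
    have h1 : De q u = (De q ^ (I + 1)) (cl q (xi : TY 𝓕)) := by
      rw [pow_succ', Module.End.mul_apply, hux]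
    rw [h1, De_cl q hpq.hq]
    refine cl_zero q _ ⟨F₀, hF₀⟩ ((xi_iter q (I + 1) ⟨F₀, hF₀⟩).2 (hcs.colorable.mono ?_))
    rw [pow_succ]
    exact Nat.mul_le_mul_left _ hqp.two_le
  have huL : Lb 𝓕 q u ≠ 0 := by
    rw [hu, Lb_cl q _ hU]
    exact one_ne_zero
  -- the bounds
  set P := p ^ c with hP
  have hP1 : 1 ≤ P := Nat.one_le_pow _ _ hpq.hp.pos
  set Q := q ^ (q ^ e) - 1 with hQ
  have hQ1 : 1 ≤ Q := by
    have h1 : q ^ 1 ≤ q ^ (q ^ e) := Nat.pow_le_pow_right hqp.pos (Nat.one_le_pow _ _ hqp.pos)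
    rw [pow_one] at h1
    have h2 := hqp.two_le
    omega
  set NM := (2 * P) * q ^ (T * I) with hNM
  set MM := (1 + (q - 2) * (2 * P)) * q ^ I with hMM
  set SM := ∑ j ∈ range NM, ε j with hSM
  refine ⟨SM + P * (2 * ((p - 1) * Q) + MM) + P + 2, fun n hn s hs => ?_⟩
  by_contra hbad
  have hNE := ne_of_strategy n (by omega) (fun G => Has 𝓕 G) s hs hbad
  set s₀ := n % P + P with hs₀
  have hs₀n : s₀ ≡ n [MOD P] := by
    rw [hs₀]
    have h1 : n % P + P ≡ n + 0 [MOD P] :=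
      (Nat.mod_modEq n P).add ((Nat.modEq_zero_iff_dvd).2 dvd_rfl)
    simpa using h1
  have hs₀P : s₀ ≤ 2 * P := by
    have := Nat.mod_lt n hP1
    omega
  obtain ⟨M₀, k, hM₀1, hM₀2, hk1, hk2, hL⟩ := extract q (Lb 𝓕 q) hux huz hu0 huL hT1 hT2
    (1 + (q - 2) * s₀) s₀ (by omega) (by
      have h1 : 1 + (q - 2) * s₀ + s₀ = 1 + (q - 1) * s₀ := by
        obtain ⟨r, hr⟩ : ∃ r, q = r + 2 := ⟨q - 2, by have := hqp.two_le; omega⟩
        subst hr
        have e1 : r + 2 - 2 = r := by omega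
        have e2 : r + 2 - 1 = r + 1 := by omega
        rw [e1, e2]
        ring
      rw [h1]
      have h2 : (q - 1) * s₀ ≡ 0 [MOD (q - 1)] := (Nat.modEq_zero_iff_dvd).2 (Dvd.intro _ rfl)
      simpa only [add_zero] using (Nat.ModEq.refl 1).add h2)
  have hkM : k ≤ NM := hk1.trans (Nat.mul_le_mul_right _ hs₀P)
  have hM₀M : M₀ ≤ MM :=
    hM₀2.trans (Nat.mul_le_mul_right _ (Nat.add_le_add_left (Nat.mul_le_mul_left _ hs₀P) 1))
  -- the sum of the primes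
  set σ := ∑ j ∈ range k, ε j with hσ
  have hσS : σ ≤ SM := by
    rw [hσ, hSM]
    exact Finset.sum_le_sum_of_subset (range_subset_range.2 hkM)
  have hσn : σ ≤ n := by omega
  have hσm : ∀ m, ∑ j ∈ range m, ε j ≡ m [MOD P] := by
    intro m
    induction m with
    | zero => exact Nat.ModEq.refl _
    | succ m ih =>
      rw [sum_range_succ]
      exact ih.add (hε1 m)
  have hdvd : P ∣ n - σ := by
    have h1 : σ ≡ n [MOD P] := ((hσm k).trans hk2).trans hs₀n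
    exact (Nat.modEq_iff_dvd' hσn).1 h1
  obtain ⟨R, hR⟩ := hdvd
  have hRbig : 2 * ((p - 1) * Q) + M₀ ≤ R := by
    by_contra hcon
    push Not at hcon
    have h1 : P * R ≤ P * (2 * ((p - 1) * Q) + MM) := Nat.mul_le_mul_left _ (by omega)
    omega
  have hp1 : 1 ≤ p - 1 := by
    have := hpq.hp.two_le
    omega
  obtain ⟨M, j₀, M₂, hM1, hM2, hM3⟩ := choose_M (p - 1) Q M₀ R hp1 hQ1 (hpq.cop e) hRbig
  have hσF : σ = ∑ j : Fin k, ε j := by
    rw [hσ, Fin.sum_univ_eq_sum_range (fun j => ε j) k]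
  refine no_ne (p := p) (q := q) hpq.hq hb' h0' ⟨F₀, hF₀⟩ hcs c (by omega) hbc e heI a M₀ k M
    j₀ M₂ hM₀1 hM1 hM3 (fun j : Fin k => ε j) (fun i j h => Fin.ext (hε h)) (fun j => hεb j)
    (fun j => hεc j) (fun j => w j) (fun j => hw1 j) z (fun j => hzj j) hL n ?_ hNE
  rw [← hσF, ← hM2, ← hR]
  omega

end Pool.Agent.TH410.KV
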