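import Mathlib
import Pool.Agent.TH410.KV.Iter
import Pool.Agent.H98R2.Nb.GC

set_option autoImplicit false
set_option linter.unusedSectionVars false

/-! Field blocks and single points: the counting criterion for blow-ups. -/

namespace Pool.Agent.TH410.KV

open Finset Pool.Agent.H98R2.Ev Pool.Agent.H98R2.Nb

section Blk

variable {I K : Type} (F : I → Type) [∀ i, Field (F i)]

/-- field blocks and single points -/
abbrev VS (K : Type) : Type := (Σ i : I, F i) ⊕ K

variable {F}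

/-- the block of a vertex -/
def bks : VS F K → I ⊕ K := Sum.map Sigma.fst id

/-- independent translations -/
def trs (K : Type) (t : ∀ i, F i) : Equiv.Perm (VS F K) :=
  Equiv.sumCongr (Equiv.sigmaCongrRight fun i => Equiv.addRight (t i)) (Equiv.refl K)

/-- multiplications -/
def cys (K : Type) (g : ∀ i, (F i)ˣ) : Equiv.Perm (VS F K) :=
  Equiv.sumCongr (Equiv.sigmaCongrRight fun i => Units.mulLeft (g i)) (Equiv.refl K)

theorem trs_inl (t : ∀ i, F i) (i : I) (a : F i) :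
    (trs K t) (Sum.inl ⟨i, a⟩) = Sum.inl ⟨i, a + t i⟩ := rfl

theorem trs_inr (t : ∀ i, F i) (k : K) : (trs K t) (Sum.inr k) = Sum.inr k := rfl

theorem cys_inl (g : ∀ i, (F i)ˣ) (i : I) (a : F i) :
    (cys K g) (Sum.inl ⟨i, a⟩) = Sum.inl ⟨i, (g i : F i) * a⟩ := rfl

theorem cys_inr (g : ∀ i, (F i)ˣ) (k : K) : (cys K g) (Sum.inr k) = Sum.inr k := rfl

theorem bks_trs (t : ∀ i, F i) (x : VS F K) : bks (trs K t x) = bks x := by
  rcases x with ⟨i, a⟩ | k <;> rfl

theorem bks_cys (g : ∀ i, (F i)ˣ) (x : VS F K) : bks (cys K g x) = bks x := by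
  rcases x with ⟨i, a⟩ | k <;> rfl

/-- a representative of a block -/
def rps : I ⊕ K → VS F K
  | Sum.inl i => Sum.inl ⟨i, 0⟩
  | Sum.inr k => Sum.inr k

theorem bks_rps (x : I ⊕ K) : bks (rps x : VS F K) = x := by
  rcases x with i | k <;> rfl

theorem trs_comm (s t : ∀ i, F i) : trs K s * trs K t = trs K t * trs K s := by
  apply Equiv.ext
  rintro (⟨i, u⟩ | y)
  · rw [Equiv.Perm.mul_apply, Equiv.Perm.mul_apply, trs_inl, trs_inl, trs_inl, trs_inl,
      add_right_comm]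
  · rfl

theorem trs_sq [∀ i, CharP (F i) 2] (t : ∀ i, F i) : trs K t ^ 2 = 1 := by
  apply Equiv.ext
  rw [pow_two]
  rintro (⟨i, u⟩ | y)
  · rw [Equiv.Perm.mul_apply, trs_inl, trs_inl, add_assoc, CharTwo.add_self_eq_zero, add_zero,
      Equiv.Perm.one_apply]
  · rfl

theorem cys_trs (g : ∀ i, (F i)ˣ) (t : ∀ i, F i) :
    (cys K g)⁻¹ * trs K t * cys K g = trs K (fun i => (((g i)⁻¹ : (F i)ˣ) : F i) * t i) := by
  rw [mul_assoc, inv_mul_eq_iff_eq_mul]
  apply Equiv.ext
  rintro (⟨i, u⟩ | j)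
  · rw [Equiv.Perm.mul_apply, Equiv.Perm.mul_apply, cys_inl, trs_inl, trs_inl, cys_inl, mul_add,
      Units.mul_inv_cancel_left]
  · rfl

variable [DecidableEq I] [DecidableEq K]

/-- the blow-up -/
def bl (A : Finset (EV (I ⊕ K))) : SimpleGraph (VS F K) := (toG A).comap bks

theorem bl_le (A B : Finset (EV (I ⊕ K))) : bl (F := F) A ≤ bl B ↔ A ⊆ B := by
  constructor
  · intro h e he
    obtain ⟨e, hd⟩ := e
    induction e using Sym2.ind with
    | _ a b =>
    have h1 : (bl (F := F) A).Adj (rps a) (rps b) := by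
      change (toG A).Adj (bks (rps a : VS F K)) (bks (rps b : VS F K))
      rw [bks_rps, bks_rps, toG_adj]
      exact ⟨hd, he⟩
    have h2 := h h1
    change (toG B).Adj (bks (rps a : VS F K)) (bks (rps b : VS F K)) at h2
    rw [bks_rps, bks_rps, toG_adj] at h2
    obtain ⟨_, h3⟩ := h2
    exact h3
  · intro h x y hxy
    exact toG_mono15 h hxy

theorem bl_trs (A : Finset (EV (I ⊕ K))) (t : ∀ i, F i) : Inv (trs K t) (bl (F := F) A) := by
  intro x y h
  change (toG A).Adj _ _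
  rw [bks_trs, bks_trs]
  exact h

theorem bl_cys (A : Finset (EV (I ⊕ K))) (g : ∀ i, (F i)ˣ) : Inv (cys K g) (bl (F := F) A) := by
  intro x y h
  change (toG A).Adj _ _
  rw [bks_cys, bks_cys]
  exact h

theorem mvs (G : SimpleGraph (VS F K)) (ha : ∀ t : ∀ i, F i, Inv (trs K t) G)
    (x y x' : VS F K) (hb : bks x' = bks x) (hxy : bks x ≠ bks y) (h : G.Adj x y) :
    G.Adj x' y := by
  rcases x with ⟨i, a⟩ | k <;> rcases x' with ⟨i', a'⟩ | k'
  · simp only [bks, Sum.map_inl, Sum.inl.injEq] at hb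
    subst hb
    have h1 := ha (Function.update 0 i' (a' - a)) _ _ h
    rw [trs_inl, Function.update_self, add_sub_cancel] at h1
    rcases y with ⟨i2, b⟩ | z
    · have hne : i2 ≠ i' := fun h2 => hxy (by simp [bks, h2])
      rw [trs_inl, Function.update_of_ne hne] at h1
      simpa using h1
    · rwa [trs_inr] at h1
  · simp [bks] at hb
  · simp [bks] at hb
  · simp only [bks, Sum.map_inr, Sum.inr.injEq, id] at hb
    subst hb
    exact h

theorem mvs2 (G : SimpleGraph (VS F K)) (ha : ∀ t : ∀ i, F i, Inv (trs K t) G)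
    (x y x' y' : VS F K) (hx : bks x' = bks x) (hy : bks y' = bks y) (hxy : bks x ≠ bks y)
    (h : G.Adj x y) : G.Adj x' y' := by
  have h1 := mvs G ha x y x' hx hxy h
  have h2 := mvs G ha y x' y' hy (by rw [hx]; exact hxy.symm) h1.symm
  exact h2.symm

variable [Fintype I] [Fintype K]

theorem complete_s (G : SimpleGraph (VS F K)) (ha : ∀ t : ∀ i, F i, Inv (trs K t) G)
    (hint : ∀ (i : I) (x y : F i), ¬ G.Adj (Sum.inl ⟨i, x⟩) (Sum.inl ⟨i, y⟩)) :
    ∃ A : Finset (EV (I ⊕ K)), bl A = G := by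
  classical
  refine ⟨univ.filter (fun e => ∃ x y : VS F K, s(bks x, bks y) = e.1 ∧ G.Adj x y), ?_⟩
  ext x y
  change (toG _).Adj (bks x) (bks y) ↔ _
  rw [toG_adj]
  constructor
  · rintro ⟨hd, h⟩
    rw [mem_filter] at h
    obtain ⟨_, x', y', hxy', hadj⟩ := h
    have hxy : bks x ≠ bks y := fun h => hd (Sym2.mk_isDiag_iff.2 h)
    simp only [Sym2.eq_iff] at hxy'
    rcases hxy' with ⟨h1, h2⟩ | ⟨h1, h2⟩
    · exact mvs2 G ha x' y' x y h1.symm h2.symm (by rw [h1, h2]; exact hxy) hadj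
    · exact mvs2 G ha y' x' x y h2.symm h1.symm (by rw [h1, h2]; exact hxy) hadj.symm
  · intro h
    have hxy : bks x ≠ bks y := by
      intro hb
      rcases x with ⟨i, a⟩ | k <;> rcases y with ⟨i', a'⟩ | k'
      · simp only [bks, Sum.map_inl, Sum.inl.injEq] at hb
        subst hb
        exact hint i a a' h
      · simp [bks] at hb
      · simp [bks] at hb
      · simp only [bks, Sum.map_inr, Sum.inr.injEq, id] at hb
        subst hb
        exact G.loopless.irrefl _ h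
    refine ⟨fun hd => hxy (Sym2.mk_isDiag_iff.1 hd), ?_⟩
    rw [mem_filter]
    exact ⟨mem_univ _, x, y, rfl, h⟩

theorem cys_iter (G : SimpleGraph (VS F K)) (g : ∀ i, (F i)ˣ) (hc : Inv (cys K g) G) (i : I)
    (x y : F i) (u : ℕ) (hxy : G.Adj (Sum.inl ⟨i, x⟩) (Sum.inl ⟨i, y⟩)) :
    G.Adj (Sum.inl ⟨i, ((g i ^ u : (F i)ˣ) : F i) * x⟩)
      (Sum.inl ⟨i, ((g i ^ u : (F i)ˣ) : F i) * y⟩) := by
  induction u with
  | zero => simpa using hxy
  | succ u ih =>
    have h := hc _ _ ih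
    rw [cys_inl, cys_inl, ← mul_assoc, ← mul_assoc, ← Units.val_mul, ← pow_succ'] at h
    exact h

/-- an edge inside a field block makes the block complete -/
theorem inner_complete (G : SimpleGraph (VS F K)) (g : ∀ i, (F i)ˣ)
    (hgen : ∀ i (x : (F i)ˣ), ∃ u : ℕ, x = g i ^ u) (ha : ∀ t : ∀ i, F i, Inv (trs K t) G)
    (hc : Inv (cys K g) G) (i : I) (x y : F i)
    (hxy : G.Adj (Sum.inl ⟨i, x⟩) (Sum.inl ⟨i, y⟩)) (a b : F i) (hab : a ≠ b) :
    G.Adj (Sum.inl ⟨i, a⟩) (Sum.inl ⟨i, b⟩) := by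
  have hne : x ≠ y := by
    rintro rfl
    exact G.irrefl hxy
  have hsub : x - y ≠ 0 := sub_ne_zero.2 hne
  have hab' : a - b ≠ 0 := sub_ne_zero.2 hab
  obtain ⟨u, hu⟩ := hgen i (Units.mk0 ((a - b) / (x - y)) (div_ne_zero hab' hsub))
  have hu' : ((g i ^ u : (F i)ˣ) : F i) = (a - b) / (x - y) := by rw [← hu]; rfl
  have h1 := ha (Function.update 0 i (b - ((g i ^ u : (F i)ˣ) : F i) * y)) _ _
    (cys_iter G g hc i x y u hxy)
  rw [trs_inl, trs_inl, Function.update_self] at h1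
  have e1 : ((g i ^ u : (F i)ˣ) : F i) * x + (b - ((g i ^ u : (F i)ˣ) : F i) * y) = a := by
    have : ((g i ^ u : (F i)ˣ) : F i) * (x - y) = a - b := by
      rw [hu', div_mul_cancel₀ _ hsub]
    linear_combination this
  have e2 : ((g i ^ u : (F i)ˣ) : F i) * y + (b - ((g i ^ u : (F i)ˣ) : F i) * y) = b := by
    ring
  rw [e1, e2] at h1
  exact h1

variable [∀ i, Fintype (F i)] [∀ i, DecidableEq (F i)] [∀ i, CharP (F i) 2]

open Classical in
/-- the criterion for hom-closed properties -/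
theorem crit_s (Q : SimpleGraph (VS F K) → Prop)
    (hmono : ∀ G G' : SimpleGraph (VS F K), G ≤ G' → Q G → Q G')
    (hiso : ∀ (s : Equiv.Perm (VS F K)) (G : SimpleGraph (VS F K)), Q (G.map s.toEmbedding) → Q G)
    (hbot : ¬ Q ⊥)
    (hbig : ∀ (G : SimpleGraph (VS F K)) (i : I),
      (∀ a b : F i, a ≠ b → G.Adj (Sum.inl ⟨i, a⟩) (Sum.inl ⟨i, b⟩)) → Q G)
    (hne : NE (univ : Finset (EV (VS F K))) (fun S => ¬ Q (toG S))) :
    (2 : ℤ) ∣ ∑ A : Finset (EV (I ⊕ K)), if ¬ Q (bl A) then (-1 : ℤ) ^ A.card else 0 := by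
  have : ∀ i, Finite (F i)ˣ := fun i => inferInstance
  choose g hg using fun i => IsCyclic.exists_generator (α := (F i)ˣ)
  have hgen : ∀ i (x : (F i)ˣ), ∃ u : ℕ, x = g i ^ u := by
    intro i x
    obtain ⟨u, hu⟩ := (mem_powers_iff_mem_zpowers).2 (hg i x)
    exact ⟨u, hu.symm⟩
  have hcrit := GC.graph_criterion (V := VS F K) (fun G => ¬ Q G)
    (fun G G' hGG' hP h => hP (hmono _ _ hGG' h))
    (fun s G hP h => hP (hiso s G h)) hbot hne 2 2 0 (fun t : (∀ i, F i) => trs K t) (cys K g) 1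
    (fun s t => trs_comm s t) (fun t => trs_sq t) (one_pow _) (fun t => by rw [mul_one, one_mul])
    (by
      intro G hG t
      rw [cys_trs]
      exact hG _)
    (by
      intro G _ hG
      rw [inv_one, one_mul, mul_one]
      exact hG)
    (fun A => bl A) bl_le (fun A t => bl_trs A t) (fun A => bl_cys A g)
    (fun A x y h => h)
    (by
      intro G hP hG1 hG2 _
      refine complete_s G hG1 fun i x y hxy => hP (hbig G i ?_)
      exact inner_complete G g hgen hG1 hG2 i x y hxy)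
  have hcrit' : (2 : ℤ) ∣ _ := hcrit
  convert hcrit' using 3

end Blk

end Pool.Agent.TH410.KV
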