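import Mathlib
import Pool.Agent.TH410.KV.Iter

set_option autoImplicit false
set_option linter.unusedSectionVars false

/-! The parity of the number of graphs without a member. -/

namespace Pool.Agent.TH410.KV

open Finset Pool.Agent.H98R2.Ev MvPolynomial

theorem two_pow_period {𝓕 : Fam} (I e : ℕ) (he : I + 1 ≤ 2 ^ e)
    (h0 : ∀ F : 𝓕, ¬ F.1.2.Colorable 1) (h1 : ∃ F : 𝓕, F.1.2.Colorable (2 ^ (I + 1)))
    {V : Type} [Fintype V] [DecidableEq V]
    (j : ℕ) (hV : Fintype.card V = 1 + j * (2 ^ (2 ^ e) - 1)) :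
    have : Fact (Nat.Prime 2) := ⟨Nat.prime_two⟩
    NN 2 (fun _ : V => (xi : TY 𝓕)) = 1 := by
  intro _
  have hX : ∀ F : 𝓕, univ ∉ (xi : TY 𝓕).1 F := by
    intro F hF
    have h2 : univ ∈ ((J 2)^[0] (xi : TY 𝓕)).1 F := hF
    rw [xi_iter, pow_zero] at h2
    exact h0 F h2
  have hnt : Nontrivial (AA 𝓕 2) := nontrivial_AA 2 _ hX
  have hch : CharP (AA 𝓕 2) 2 := charP_AA 2
  have hDe : (De 2 ^ (I + 1)) (cl 2 (xi : TY 𝓕)) = 0 := by
    rw [De_cl 2 (Or.inl rfl)]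
    obtain ⟨F, hF⟩ := h1
    exact cl_zero 2 _ F ((xi_iter 2 (I + 1) F).2 hF)
  have hper := pow_period 2 hDe he
  rw [← Lb_prod, prod_const, card_univ, hV,
    pow_add_period (Nat.one_le_two_pow) hper 1 le_rfl j, pow_one, Lb_cl 2 _ hX]

end Pool.Agent.TH410.KV
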