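import Mathlib
import Pool.Agent.TH410.KV.HomCount
import Pool.Agent.TH410.KV.HomBlk
import Pool.Agent.H98R2.Ev.T3
import Pool.Agent.H98R2.Ev.T15

set_option autoImplicit false
set_option linter.unusedSectionVars false

/-! Properties preserved by homomorphisms are evasive. -/

namespace Pool.Agent.TH410.KV

open Finset Pool.Agent.H98R2.Ev MvPolynomial

/-! ### Sums of powers of two -/

theorem rep_base (R : ℕ) (hR : 1 ≤ R) :
    ∃ l : List ℕ, (l.map (fun d => 2 ^ d)).sum = R ∧ l.length ≤ Nat.log 2 R + 1 := by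
  induction R using Nat.strong_induction_on with
  | _ R ih =>
  have hmap : ∀ l : List ℕ, ((l.map (fun d => d + 1)).map (fun d => 2 ^ d)).sum =
      2 * (l.map (fun d => 2 ^ d)).sum := by
    intro l
    induction l with
    | nil => simp
    | cons a l ih =>
      simp only [List.map_cons, List.sum_cons] at ih ⊢
      rw [ih, pow_succ]
      ring
  rcases Nat.lt_or_ge R 2 with h | h
  · have : R = 1 := by omega
    subst this
    exact ⟨[0], by simp, by simp⟩
  · obtain ⟨l, h1, h2⟩ := ih (R / 2) (by omega) (by omega)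
    have hlog : Nat.log 2 R = Nat.log 2 (R / 2) + 1 := Nat.log_of_one_lt_of_le (by norm_num) h
    rcases Nat.mod_two_eq_zero_or_one R with h3 | h3
    · refine ⟨l.map (fun d => d + 1), ?_, ?_⟩
      · rw [hmap, h1]
        omega
      · rw [List.length_map, hlog]
        omega
    · refine ⟨0 :: l.map (fun d => d + 1), ?_, ?_⟩
      · rw [List.map_cons, List.sum_cons, hmap, h1]
        omega
      · rw [List.length_cons, List.length_map, hlog]
        omega

theorem rep_split (R : ℕ) (l : List ℕ) (h : (l.map (fun d => 2 ^ d)).sum = R)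
    (hl : l.length < R) :
    ∃ l' : List ℕ, (l'.map (fun d => 2 ^ d)).sum = R ∧ l'.length = l.length + 1 := by
  have hex : ∃ d ∈ l, 1 ≤ d := by
    by_contra hcon
    push Not at hcon
    have h1 : l.map (fun d => 2 ^ d) = l.map (fun _ => 1) := by
      apply List.map_congr_left
      intro d hd
      have := hcon d hd
      have : d = 0 := by omega
      subst this
      rfl
    rw [h1] at h
    simp at h
    omega
  obtain ⟨d, hd, h1⟩ := hex
  have hp := List.perm_cons_erase hd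
  have hs := (hp.map (fun d => 2 ^ d)).sum_eq
  rw [List.map_cons, List.sum_cons] at hs
  have hlen := hp.length_eq
  rw [List.length_cons] at hlen
  refine ⟨(d - 1) :: (d - 1) :: l.erase d, ?_, ?_⟩
  · obtain ⟨d, rfl⟩ : ∃ d', d = d' + 1 := ⟨d - 1, by omega⟩
    rw [List.map_cons, List.sum_cons, List.map_cons, List.sum_cons, Nat.add_sub_cancel, ← h, hs,
      pow_succ]
    ring
  · rw [List.length_cons, List.length_cons, hlen]

theorem rep (R M : ℕ) (hR : 1 ≤ R) (h1 : Nat.log 2 R + 1 ≤ M) (h2 : M ≤ R) :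
    ∃ d : Fin M → ℕ, ∑ i, 2 ^ d i = R := by
  obtain ⟨l, hl1, hl2⟩ := rep_base R hR
  have key : ∀ k, l.length ≤ k → k ≤ R →
      ∃ l' : List ℕ, (l'.map (fun d => 2 ^ d)).sum = R ∧ l'.length = k := by
    intro k hk
    induction k, hk using Nat.le_induction with
    | base => exact fun _ => ⟨l, hl1, rfl⟩
    | succ k hk ih =>
      intro hkR
      obtain ⟨l', h3, h4⟩ := ih (by omega)
      obtain ⟨l'', h5, h6⟩ := rep_split R l' h3 (by omega)
      exact ⟨l'', h5, by omega⟩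
  obtain ⟨l', h3, h4⟩ := key M (by omega) h2
  subst h4
  refine ⟨fun i => l'.get i, ?_⟩
  rw [← h3]
  conv_rhs => rw [← List.ofFn_get l']
  rw [List.map_ofFn, List.sum_ofFn]
  rfl

theorem le_of_sq_le_sq' {a b : ℕ} (h : a ^ 2 ≤ b ^ 2) : a ≤ b :=
  (Nat.pow_le_pow_iff_left (by norm_num)).1 h

theorem cube_le (L : ℕ) : (L + 1) ^ 3 ≤ 8 * 2 ^ L := by
  induction L with
  | zero => norm_num
  | succ L ih =>
    rcases Nat.lt_or_ge L 4 with h | h
    · interval_cases L <;> norm_num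
    · rw [pow_succ 2 L]
      have h1 : (L + 1 + 1) ^ 3 ≤ 2 * (L + 1) ^ 3 := by
        obtain ⟨x, rfl⟩ : ∃ x, L = x + 4 := ⟨L - 4, by omega⟩
        nlinarith [sq_nonneg x, Nat.zero_le (x ^ 3), Nat.zero_le (x ^ 2), Nat.zero_le x]
      omega

/-- choice of the number of blocks -/
theorem window (n t I : ℕ) (hn : 8 * t ^ 3 ≤ n) (hI : 2 ^ I < t) :
    ∃ e j : ℕ, I + 1 ≤ 2 ^ e ∧ 2 ^ (I + 1) + Nat.log 2 n + 1 ≤ 1 + j * (2 ^ (2 ^ e) - 1) ∧
      1 + j * (2 ^ (2 ^ e) - 1) ≤ n / 2 ^ (I + 1) := by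
  set e := Nat.clog 2 (I + 1) with he
  have he1 : I + 1 ≤ 2 ^ e := Nat.le_pow_clog (by norm_num) _
  have he2 : 2 ^ (2 ^ e) ≤ 2 * (2 ^ I) ^ 2 := by
    rcases Nat.eq_zero_or_pos I with h | h
    · rw [he, h]
      norm_num
    · have h1 : 2 ^ (e - 1) < I + 1 :=
        Nat.pow_pred_clog_lt_self (by norm_num) (by omega)
      have h2 : e ≠ 0 := by
        intro h'
        rw [h'] at he1
        simp at he1
        omega
      have h3 : 2 ^ e = 2 * 2 ^ (e - 1) := by
        obtain ⟨e', h4⟩ : ∃ e', e = e' + 1 := ⟨e - 1, by omega⟩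
        rw [h4, Nat.add_sub_cancel, pow_succ]
        ring
      calc 2 ^ (2 ^ e) ≤ 2 ^ (2 * I) := Nat.pow_le_pow_right (by norm_num) (by omega)
        _ = (2 ^ I) ^ 2 := by rw [← pow_mul, mul_comm]
        _ ≤ 2 * (2 ^ I) ^ 2 := by omega
  obtain ⟨K, hK⟩ : ∃ K, K = 2 ^ (2 ^ e) - 1 := ⟨_, rfl⟩
  have hK1 : 1 ≤ K := by
    have : 2 ^ 1 ≤ 2 ^ (2 ^ e) := Nat.pow_le_pow_right (by norm_num) Nat.one_le_two_pow
    omega
  obtain ⟨L, hL⟩ : ∃ L, L = Nat.log 2 n := ⟨_, rfl⟩
  obtain ⟨B, hB⟩ : ∃ B, B = 2 ^ (I + 1) + L := ⟨_, rfl⟩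
  refine ⟨e, B / K + 1, he1, ?_, ?_⟩
  · have h1 : B < (B / K + 1) * K := by
      rw [mul_comm]
      exact Nat.lt_mul_div_succ B hK1
    rw [← hK, ← hL, ← hB]
    omega
  · rw [Nat.le_div_iff_mul_le (by positivity), ← hK]
    have h1 : (B / K + 1) * K ≤ B + K := by
      rw [add_mul, one_mul]
      exact Nat.add_le_add_right (Nat.div_mul_le_self B K) K
    have hI1 : 1 ≤ 2 ^ I := Nat.one_le_two_pow
    obtain ⟨τ, hτ⟩ : ∃ τ, t = τ + 1 := ⟨t - 1, by omega⟩
    have hIτ : 2 ^ I ≤ τ := by omega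
    have h2 : 2 ^ (I + 1) ≤ 2 * τ := by
      rw [pow_succ]
      omega
    have h3 : K + 1 ≤ 2 * τ ^ 2 := by
      have : (2 ^ I) ^ 2 ≤ τ ^ 2 := Nat.pow_le_pow_left hIτ 2
      omega
    have h4' : 1 + (B / K + 1) * K ≤ 2 * τ + L + 2 * τ ^ 2 := by
      calc 1 + (B / K + 1) * K ≤ 1 + (B + K) := Nat.add_le_add_left h1 1
        _ = 2 ^ (I + 1) + L + (K + 1) := by rw [hB]; ring
        _ ≤ 2 * τ + L + 2 * τ ^ 2 := Nat.add_le_add (Nat.add_le_add_right h2 L) h3
    have h4 : (1 + (B / K + 1) * K) * 2 ^ (I + 1) ≤ (2 * τ + L + 2 * τ ^ 2) * (2 * τ) :=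
      Nat.mul_le_mul h4' h2
    refine h4.trans ?_
    have hτ1 : 1 ≤ τ := le_trans Nat.one_le_two_pow hIτ
    have hn0 : n ≠ 0 := by
      have : 0 < 8 * t ^ 3 := by
        rw [hτ]
        positivity
      omega
    have h7 : 2 ^ L ≤ n := by
      rw [hL]
      exact Nat.pow_log_le_self 2 hn0
    have h5 : (2 * τ + L + 2 * τ ^ 2) * (2 * τ) ≤ 4 * t ^ 3 + 2 * t * (L + 1) := by
      rw [hτ]
      nlinarith [Nat.zero_le (τ ^ 3), Nat.zero_le (τ ^ 2), Nat.zero_le τ, Nat.zero_le L,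
        Nat.zero_le (τ * L)]
    refine h5.trans ?_
    have h6 : 2 * (2 * t * (L + 1)) ≤ n := by
      rcases Nat.lt_or_ge L (2 * t ^ 2) with h8 | h8
      · calc 2 * (2 * t * (L + 1)) ≤ 2 * (2 * t * (2 * t ^ 2)) :=
              Nat.mul_le_mul_left _ (Nat.mul_le_mul_left _ h8)
          _ = 8 * t ^ 3 := by ring
          _ ≤ n := hn
      · have h9 : 8 ≤ L := by
          have : 2 ^ 2 ≤ t ^ 2 := Nat.pow_le_pow_left (by omega) 2
          omega
        have h10 : (2 * (2 * t * (L + 1))) ^ 2 ≤ (2 ^ L) ^ 2 := by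
          calc (2 * (2 * t * (L + 1))) ^ 2 = 8 * (2 * t ^ 2) * (L + 1) ^ 2 := by ring
            _ ≤ 8 * (L + 1) * (L + 1) ^ 2 :=
              Nat.mul_le_mul_right _ (Nat.mul_le_mul_left _ (by omega))
            _ = 8 * (L + 1) ^ 3 := by ring
            _ ≤ 8 * (8 * 2 ^ L) := Nat.mul_le_mul_left _ (cube_le L)
            _ = 2 ^ 6 * 2 ^ L := by ring
            _ ≤ 2 ^ L * 2 ^ L :=
              Nat.mul_le_mul_right _ (Nat.pow_le_pow_right (by norm_num) (by omega))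
            _ = (2 ^ L) ^ 2 := by ring
        exact (le_of_sq_le_sq' h10).trans h7
    omega

/-! ### The main theorem -/

section Main

theorem hom_map {V W : Type} (e : V ≃ W) (G : SimpleGraph V) :
    Nonempty (G →g G.map e.toEmbedding) ∧ Nonempty (G.map e.toEmbedding →g G) :=
  ⟨⟨(SimpleGraph.Iso.map e G).toHom⟩, ⟨(SimpleGraph.Iso.map e G).symm.toHom⟩⟩

theorem bot_of_colorable_one {V : Type} (G : SimpleGraph V) (h : G.Colorable 1) : G = ⊥ := by
  obtain ⟨C⟩ := h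
  ext x y
  simp only [SimpleGraph.bot_adj, iff_false]
  intro hxy
  exact C.valid hxy (Subsingleton.elim _ _)

/-- **Properties preserved by homomorphisms are evasive.** -/
theorem hom_main (n t : ℕ) (hn : 8 * t ^ 3 ≤ n) (P : SimpleGraph (Fin n) → Prop)
    (hP : ∀ G H : SimpleGraph (Fin n), P G → Nonempty (G →g H) → P H) (hne : ∃ G, ¬ P G)
    (ht : ∃ G, P G ∧ G.Colorable t)
    (s : Finset (Sym2 (Fin n)) → SimpleGraph (Fin n) → Sym2 (Fin n))
    (hs : ∀ (Q : Finset (Sym2 (Fin n))) (G H : SimpleGraph (Fin n)),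
      (∀ e ∈ Q, (e ∈ G.edgeSet ↔ e ∈ H.edgeSet)) → s Q G = s Q H) :
    ∃ G H : SimpleGraph (Fin n),
      (∀ e ∈ (fun Q : Finset (Sym2 (Fin n)) => insert (s Q G) Q)^[n.choose 2 - 1]
        (∅ : Finset (Sym2 (Fin n))), (e ∈ G.edgeSet ↔ e ∈ H.edgeSet)) ∧ P G ∧ ¬ P H := by
  classical
  by_contra hbad
  have hPbot : ¬ P ⊥ := by
    intro h
    obtain ⟨G, hG⟩ := hne
    exact hG (hP ⊥ G h ⟨⟨id, fun {a b} hab => by simp at hab⟩⟩)
  -- the threshold
  have hex : ∃ i, ∃ G, P G ∧ G.Colorable (2 ^ i) := by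
    obtain ⟨G, hG, hc⟩ := ht
    exact ⟨t, G, hG, hc.mono Nat.lt_two_pow_self.le⟩
  set k := Nat.find hex with hk
  have hk1 : ∃ G, P G ∧ G.Colorable (2 ^ k) := Nat.find_spec hex
  have hk0 : k ≠ 0 := by
    intro h
    rw [h, pow_zero] at hk1
    obtain ⟨G, hG, hc⟩ := hk1
    rw [bot_of_colorable_one G hc] at hG
    exact hPbot hG
  obtain ⟨I, hI⟩ : ∃ I, k = I + 1 := ⟨k - 1, by omega⟩
  have hI0 : ∀ G, P G → ¬ G.Colorable (2 ^ I) := by
    intro G hG hc
    have := Nat.find_min hex (m := I) (by omega)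
    exact this ⟨G, hG, hc⟩
  rw [hI] at hk1
  have hIt : 2 ^ I < t := by
    by_contra hcon
    push Not at hcon
    obtain ⟨G, hG, hc⟩ := ht
    exact hI0 G hG (hc.mono hcon)
  have hn2 : 2 ≤ n := by
    have : 2 ^ 3 ≤ t ^ 3 := Nat.pow_le_pow_left (by
      have : 1 ≤ 2 ^ I := Nat.one_le_two_pow
      omega) 3
    omega
  have hNE := ne_of_strategy n hn2 P s hs hbad
  obtain ⟨ex, j, hex1, hj3, hj4⟩ := window n t I hn hIt
  set m := 1 + j * (2 ^ (2 ^ ex) - 1) with hm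
  -- the blocks
  set c := I + 1 with hc
  set R := n / 2 ^ c with hR
  set r := n % 2 ^ c with hr
  have hnr : 2 ^ c * R + r = n := Nat.div_add_mod n (2 ^ c)
  have hrlt : r < 2 ^ c := Nat.mod_lt _ (by positivity)
  obtain ⟨M, hM⟩ : ∃ M, m = M + r := ⟨m - r, by omega⟩
  have hR1 : 1 ≤ R := by omega
  have hlogR : Nat.log 2 R ≤ Nat.log 2 n := Nat.log_mono_right (Nat.div_le_self _ _)
  obtain ⟨d, hd⟩ := rep R M hR1 (by omega) (by omega)
  let F : Fin M → Type := fun i => GaloisField 2 (c + d i)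
  have : ∀ i, Fintype (F i) := fun i => Fintype.ofFinite _
  have hFcard : ∀ i, Fintype.card (F i) = 2 ^ (c + d i) := by
    intro i
    rw [← Nat.card_eq_fintype_card]
    exact GaloisField.card 2 (c + d i) (by omega)
  have hcard : Fintype.card (Fin n) = Fintype.card (VS F (Fin r)) := by
    rw [Fintype.card_fin, Fintype.card_sum, Fintype.card_sigma, Fintype.card_fin,
      Finset.sum_congr rfl (fun i _ => hFcard i)]
    simp only [pow_add]
    rw [← Finset.mul_sum, hd]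
    exact hnr.symm
  let e : Fin n ≃ VS F (Fin r) := Fintype.equivOfCardEq hcard
  have hNE2 := ne_map15 (ev15 e) _ _ hNE
  rw [Finset.map_univ_equiv] at hNE2
  let Q : SimpleGraph (VS F (Fin r)) → Prop := fun G => P (G.map e.symm.toEmbedding)
  have hQ : ∀ G H : SimpleGraph (VS F (Fin r)), Nonempty (G →g H) → Q G → Q H := by
    rintro G H ⟨f⟩ hG
    obtain ⟨⟨g1⟩, _⟩ := hom_map e.symm H
    obtain ⟨_, ⟨g2⟩⟩ := hom_map e.symm G
    exact hP _ _ hG ⟨(g1.comp f).comp g2⟩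
  have hQ2 : ∀ (G : SimpleGraph (Fin n)) (H : SimpleGraph (VS F (Fin r))), P G →
      Nonempty (G →g H) → Q H := by
    rintro G H hG ⟨f⟩
    obtain ⟨⟨g1⟩, _⟩ := hom_map e.symm H
    exact hP _ _ hG ⟨g1.comp f⟩
  have hNE3 : NE (univ : Finset (EV (VS F (Fin r)))) (fun S => ¬ Q (toG S)) := by
    have h1 : (fun S : Finset (EV (VS F (Fin r))) => ¬ Q (toG S)) =
        (fun S => ¬ P (toG (S.map (ev15 e).symm.toEmbedding))) := by
      funext S
      have h2 : toG (S.map (ev15 e).symm.toEmbedding) = (toG S).map e.symm.toEmbedding :=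
        toG_map15 e.symm S
      rw [h2]
    rw [h1]
    exact hNE2
  have hcrit := crit_s (F := F) (K := Fin r) Q
    (fun G G' hGG' hG => hQ G G' ⟨SimpleGraph.Hom.ofLE hGG'⟩ hG)
    (fun s G hG => hQ _ _ (hom_map s G).2 hG)
    (by
      intro h
      refine hPbot ?_
      have h1 : (⊥ : SimpleGraph (VS F (Fin r))).map e.symm.toEmbedding = ⊥ := by
        ext a b
        constructor
        · rw [SimpleGraph.map_adj]
          rintro ⟨_, _, h, _⟩
          exact h.elim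
        · intro h
          exact h.elim
      change P _ at h
      rwa [h1] at h)
    (by
      intro G i hcomp
      obtain ⟨G₀, hG₀, ⟨C⟩⟩ := hk1
      have hemb : Nonempty (Fin (2 ^ c) ↪ F i) := by
        apply Function.Embedding.nonempty_of_card_le
        rw [Fintype.card_fin, hFcard]
        exact Nat.pow_le_pow_right (by norm_num) (by omega)
      obtain ⟨φ⟩ := hemb
      refine hQ2 G₀ G hG₀ ⟨⟨fun x => Sum.inl ⟨i, φ (C x)⟩, fun {a b} hab => ?_⟩⟩
      exact hcomp _ _ (fun h => C.valid hab (φ.injective h)))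
    hNE3
  -- the family
  let 𝓕 : Fam := (fun G : SimpleGraph (Fin n) => (⟨n, G⟩ : Σ k : ℕ, SimpleGraph (Fin k))) '' {G | P G}
  have hmem : ∀ F : 𝓕, ∃ G, P G ∧ F.1 = ⟨n, G⟩ := by
    rintro ⟨F, G, hG, rfl⟩
    exact ⟨G, hG, rfl⟩
  have hcount := two_pow_period (𝓕 := 𝓕) I ex hex1
    (by
      intro F hF
      obtain ⟨G, hG, hFG⟩ := hmem F
      rw [hFG] at hF
      exact hI0 G hG (hF.mono Nat.one_le_two_pow))
    (by
      obtain ⟨G, hG, hc⟩ := hk1
      exact ⟨⟨⟨n, G⟩, G, hG, rfl⟩, hc⟩)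
    (V := Fin M ⊕ Fin r) j (by rw [Fintype.card_sum, Fintype.card_fin, Fintype.card_fin, ← hM])
  have hiff : ∀ A : Finset (EV (Fin M ⊕ Fin r)),
      Q (bl A) ↔ Bad (fun _ : Fin M ⊕ Fin r => (xi : TY 𝓕)) (toG A) := by
    intro A
    constructor
    · intro hA
      refine ⟨⟨⟨n, _⟩, _, hA, rfl⟩, fun x => bks (e x), fun v x hx y hy hxy => ?_,
        fun x y hxy _ => ?_⟩
      · simp only [mem_filter, mem_univ, true_and] at hx hy
        rw [SimpleGraph.map_adj] at hxy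
        obtain ⟨a, b, hab, rfl, rfl⟩ := hxy
        change bks (e (e.symm a)) = v at hx
        change bks (e (e.symm b)) = v at hy
        rw [e.apply_symm_apply] at hx hy
        change (toG A).Adj (bks a) (bks b) at hab
        rw [hx, hy] at hab
        exact (toG A).loopless.irrefl _ hab
      · rw [SimpleGraph.map_adj] at hxy
        obtain ⟨a, b, hab, rfl, rfl⟩ := hxy
        change (toG A).Adj (bks (e (e.symm a))) (bks (e (e.symm b)))
        rw [e.apply_symm_apply, e.apply_symm_apply]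
        exact hab
    · rintro ⟨⟨F, hF⟩, κ, h1, h2⟩
      obtain ⟨G, hG, rfl⟩ := hF
      refine hQ2 G _ hG ⟨⟨fun x => rps (κ x), fun {x y} hxy => ?_⟩⟩
      change (toG A).Adj (bks (rps (κ x) : VS F (Fin r))) (bks (rps (κ y) : VS F (Fin r)))
      rw [bks_rps, bks_rps]
      refine h2 x y hxy fun h => ?_
      exact h1 (κ x) x (by simp) y (by simp [h]) hxy
  -- conclusion
  have hz : (((∑ A : Finset (EV (Fin M ⊕ Fin r)),
      if ¬ Q (bl A) then (-1 : ℤ) ^ A.card else 0 : ℤ)) : ZMod 2) = 0 := by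
    rw [ZMod.intCast_zmod_eq_zero_iff_dvd]
    exact hcrit
  have : Fact (Nat.Prime 2) := ⟨Nat.prime_two⟩
  have hNN : NN 2 (fun _ : Fin M ⊕ Fin r => (xi : TY 𝓕)) = 0 := by
    rw [← hz]
    unfold NN
    push_cast
    refine Finset.sum_congr rfl fun A _ => ?_
    unfold ind
    by_cases h : Bad (fun _ : Fin M ⊕ Fin r => (xi : TY 𝓕)) (toG A)
    · rw [if_pos h, if_neg (not_not.2 ((hiff A).2 h)), zero_mul]
    · rw [if_neg h, if_pos (fun h' => h ((hiff A).1 h')), one_mul]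
  rw [hcount] at hNN
  exact one_ne_zero hNN

end Main

end Pool.Agent.TH410.KV
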